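import Mathlib

set_option autoImplicit false
set_option linter.style.longLine false

namespace Pool.Agent.TH798.CE

/-! Polynomial identities modulo `s ^ 2 + c ^ 2 = 1`. -/

lemma id_T {c s : ℝ} (e a d g : ℝ) (h : s ^ 2 + c ^ 2 = 1) :
    (c * (a * c ^ 2 - 2 * g * s * c + d * s ^ 2) ^ 2 * (1 + e ^ 2 + 2 * e * c) + s * (2 * (a * c ^ 2 - 2 * g * s * c + d * s ^ 2) * (2 * ((d - a) * s * c - g * (c ^ 2 - s ^ 2)))) * (1 + e ^ 2 + 2 * e * c) + s * (a * c ^ 2 - 2 * g * s * c + d * s ^ 2) ^ 2 * (2 * e * -s) - (c * (a * d - g ^ 2) * (1 + e * c) ^ 2 + s * (a * d - g ^ 2) * (2 * (1 + e * c) * (e * -s))) + ((((a * s ^ 2 + 2 * g * s * c + d * c ^ 2) - (a * c ^ 2 - 2 * g * s * c + d * s ^ 2)) * (a * c ^ 2 - 2 * g * s * c + d * s ^ 2) + ((d - a)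 * s * c - g * (c ^ 2 - s ^ 2)) * (2 * ((d - a) * s * c - g * (c ^ 2 - s ^ 2)))) * (1 + e * c) + ((d - a) * s * c - g * (c ^ 2 - s ^ 2)) * (a * c ^ 2 - 2 * g * s * c + d * s ^ 2) * (e * -s)) * (e + c) + ((d - a) * s * c - g * (c ^ 2 - s ^ 2)) * (a * c ^ 2 - 2 * g * s * c + d * s ^ 2) * (1 + e * c) * -s) * s - 3 * c * (s * (a * c ^ 2 - 2 * g * s * c + d * s ^ 2) ^ 2 * (1 + e ^ 2 + 2 * e * c) - s * (a * d - g ^ 2) * (1 + e * c) ^ 2 + ((d - a) * s * c - g * (c ^ 2 - s ^ 2)) * (a * c ^ 2 - 2 * g * s * c + d * s ^ 2) * (1 + e * c) * (e + c)) = 3 * (a * c ^ 2 - 2 * g * s * c + d * s ^ 2) * (g * (1 + e ^ 2 + e * c * (5 - 5 * c ^ 2 + 2 * c ^ 4)) + (a - d) * e * s ^ 5) := by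
  linear_combination (-2*a*c*d*e^2*s^3 -2*a*c*d*s -2*a*c*d*s^3 +6*a*c*e*g*s^4 -4*a*c^2*d*e*s -3*a*c^2*d*e*s^3 +3*a*c^2*e^2*g +3*a*c^2*e^2*g*s^2 +3*a*c^2*g +3*a*c^2*g*s^2 -2*a*c^3*d*e^2*s -2*a*c^3*d*s +15*a*c^3*e*g +14*a*c^3*e*g*s^2 -2*a*c^4*d*e*s +3*a*c^4*e^2*g +3*a*c^4*g -3*a*c^5*e*g -2*a*d*e*s^3 -3*a*d*e*s^5 -3*a^2*c^2*e*s^3 -2*a^2*c^4*e*s +15*c*d*e*g*s^2 +8*c*d*e*g*s^4 -6*c*e^2*g^2*s -4*c*e^2*g^2*s^3 -4*c*g^2*s -4*c*g^2*s^3 +3*c^2*d*e^2*g*s^2 +3*c^2*d*g*s^2 -26*c^2*e*g^2*s -18*c^2*e*g^2*s^3 -3*c^3*d*e*g*s^2 -4*c^3*e^2*g^2*s -4*c^3*g^2*s +8*c^4*e*g^2*s +3*d*e^2*g*s^2 +3*d*e^2*g*s^4 +3*d*g*s^2 +3*d*g*s^4 +d^2*e*s^5 +2*e*g^2*s^3) * h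

lemma id_R {c s : ℝ} (e a d g : ℝ) (h : s ^ 2 + c ^ 2 = 1) :
    ((e * -s) * (e * s * (a * c ^ 2 - 2 * g * s * c + d * s ^ 2) + (1 + e * c) * ((d - a) * s * c - g * (c ^ 2 - s ^ 2))) + (1 + e * c) * (e * c * (a * c ^ 2 - 2 * g * s * c + d * s ^ 2) + e * s * (2 * ((d - a) * s * c - g * (c ^ 2 - s ^ 2))) + ((e * -s) * ((d - a) * s * c - g * (c ^ 2 - s ^ 2)) + (1 + e * c) * ((a * s ^ 2 + 2 * g * s * c + d * c ^ 2) - (a * c ^ 2 - 2 * g * s * c + d * s ^ 2))))) * s * (a * c ^ 2 - 2 * g * s * c + d * s ^ 2) - (1 + e * c) * (e * s * (a * c ^ 2 - 2 * g * s * c + d * s ^ 2) + (1 + e * c) * ((d - a) * s * c - g * (c ^ 2 - s ^ 2))) * (c * (a * c ^ 2 - 2 * g * s * c + d * s ^ 2) + s * ((d - a) * s * c - g * (c ^ 2 - s ^ 2))) = -(s * (a * c ^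 2 - 2 * g * s * c + d * s ^ 2) ^ 2 * (1 + e ^ 2 + 2 * e * c) - s * (a * d - g ^ 2) * (1 + e * c) ^ 2 + ((d - a) * s * c - g * (c ^ 2 - s ^ 2)) * (a * c ^ 2 - 2 * g * s * c + d * s ^ 2) * (1 + e * c) * (e + c)) := by
  linear_combination (2*a*c*d*e*s +3*a*c*d*e*s^3 +a*c^2*d*e^2*s +a*c^2*d*s -3*a*c^2*e*g*s^2 +a*c^3*d*e*s +a*c^3*e^2*g*s^2 +a*c^4*e*g +a*c^5*e^2*g +a*d*s +a*d*s^3 +a^2*c^3*e*s +3*c*d*e^2*g*s^4 -c*d^2*e*s^3 -2*c*e*g^2*s +3*c^2*d*e*g*s^2 -c^2*d^2*e^2*s^3 -c^2*e^2*g^2*s -3*c^2*e^2*g^2*s^3 -c^2*g^2*s +3*c^3*d*e^2*g*s^2 -4*c^3*e*g^2*s -3*c^4*e^2*g^2*s -d*e*g*s^4 -d^2*e^2*s^5 -g^2*s -g^2*s^3) * h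

lemma id_G {c s : ℝ} (e a d g : ℝ) (h : s ^ 2 + c ^ 2 = 1) :
    g * (a * c ^ 2 - 2 * g * s * c + d * s ^ 2) * (1 + e * c) ^ 2 = s * (c * ((1 + e * c) ^ 2 * ((d - a) * s * c - g * (c ^ 2 - s ^ 2)) ^ 2 + e ^ 2 * s ^ 2 * (a * c ^ 2 - 2 * g * s * c + d * s ^ 2) ^ 2) + (1 + 2 * e * c) * (s * (1 + e * c) * ((d - a) * s * c - g * (c ^ 2 - s ^ 2)) * (a * c ^ 2 - 2 * g * s * c + d * s ^ 2))) - c * (s * (a * c ^ 2 - 2 * g * s * c + d * s ^ 2) ^ 2 * (1 + e ^ 2 + 2 * e * c) - s * (a * d - g ^ 2) * (1 + e * c) ^ 2 + ((d - a) * s * c - g * (c ^ 2 - s ^ 2)) * (a * c ^ 2 - 2 * g * s * c + d * s ^ 2) * (1 + e * c) * (e + c)) := by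
  linear_combination (a*c*d*s +a*c*d*s^3 +2*a*c^2*d*e*s +3*a*c^2*d*e*s^3 -a*c^2*g -a*c^2*g*s^2 +a*c^3*d*e^2*s +a*c^3*d*s -2*a*c^3*e*g -5*a*c^3*e*g*s^2 +a*c^4*d*e*s -a*c^4*e^2*g -a*c^4*g -a*c^5*e*g +a^2*c^4*e*s -2*c*d*e*g*s^2 -3*c*d*e*g*s^4 -c*d^2*e^2*s^5 +c*g^2*s +c*g^2*s^3 -c^2*d*e^2*g*s^2 +2*c^2*d*e^2*g*s^4 -c^2*d*g*s^2 -c^2*d^2*e*s^3 +2*c^2*e*g^2*s +4*c^2*e*g^2*s^3 +c^3*d*e*g*s^2 -c^3*d^2*e^2*s^3 +c^3*e^2*g^2*s -c^3*e^2*g^2*s^3 +c^3*g^2*s +2*c^4*d*e^2*g*s^2 -c^5*e^2*g^2*s -d*g*s^2 -d*g*s^4) * h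

lemma id_P {c s : ℝ} (e a d g : ℝ) (h : s ^ 2 + c ^ 2 = 1) :
    (1 + e * c) * (a * c ^ 2 - 2 * g * s * c + d * s ^ 2) * (g * (1 + e ^ 2 + e * c * (5 - 5 * c ^ 2 + 2 * c ^ 4)) + (a - d) * e * s ^ 5) = s * ((e + c) * ((1 + e * c) ^ 2 * ((d - a) * s * c - g * (c ^ 2 - s ^ 2)) ^ 2 + e ^ 2 * s ^ 2 * (a * c ^ 2 - 2 * g * s * c + d * s ^ 2) ^ 2) + (1 + 2 * e ^ 2 + 3 * e * c) * (s * (1 + e * c) * ((d - a) * s * c - g * (c ^ 2 - s ^ 2)) * (a * c ^ 2 - 2 * g * s * c + d * s ^ 2))) - (e + c) * (s * (a * c ^ 2 - 2 * g * s * c + d * s ^ 2) ^ 2 * (1 + e ^ 2 + 2 * e * c) - s * (a * d - g ^ 2) * (1 + e * c) ^ 2 + ((d - a) * s * c - g * (c ^ 2 - s ^ 2)) * (a * c ^ 2 - 2 * g * s * c + d * s ^ 2) * (1 + e * c) * (e + c)) := by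
  linear_combination (2*a*c*d*e^2*s +3*a*c*d*e^2*s^3 +a*c*d*e^2*s^5 +a*c*d*s +a*c*d*s^3 -2*a*c*e*g*s^4 +3*a*c^2*d*e*s +2*a*c^2*d*e*s^3 +a*c^2*d*e^3*s -a*c^2*e^2*g -4*a*c^2*e^2*g*s^2 -2*a*c^2*e^2*g*s^4 -a*c^2*g -a*c^2*g*s^2 +2*a*c^3*d*e^2*s -a*c^3*d*e^2*s^3 +a*c^3*d*s -6*a*c^3*e*g -6*a*c^3*e*g*s^2 -a*c^3*e^3*g +a*c^4*d*e*s -5*a*c^4*e^2*g -a*c^4*e^2*g*s^2 -a*c^4*g +a*c^5*e*g +2*a*c^6*e^2*g +a*d*e*s +a*d*e*s^3 +a*d*e*s^5 +a^2*c^2*e*s^3 +a^2*c^3*e^2*s +a^2*c^3*e^2*s^3 +a^2*c^4*e*s -6*c*d*e*g*s^2 -2*c*d*e*g*s^4 -c*d*e^3*g*s^2 +2*c*d*e^3*g*s^4 -c*d^2*e^2*s^3 -2*c*d^2*e^2*s^5 +2*c*e^2*g^2*s^3 +c*g^2*s +c*g^2*s^3 -3*c^2*d*e^2*g*s^2 +3*c^2*d*e^2*g*s^4 -c^2*d*g*s^2 -c^2*d^2*e*s^3 -c^2*d^2*e^3*s^3 +9*c^2*e*g^2*s +6*c^2*e*g^2*s^3 +c^2*e^3*g^2*s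 -c^2*e^3*g^2*s^3 +3*c^3*d*e*g*s^2 +2*c^3*d*e^3*g*s^2 -c^3*d^2*e^2*s^3 +7*c^3*e^2*g^2*s +c^3*e^2*g^2*s^3 +c^3*g^2*s +4*c^4*d*e^2*g*s^2 -4*c^4*e*g^2*s -c^4*e^3*g^2*s -5*c^5*e^2*g^2*s -d*e^2*g*s^2 -2*d*e^2*g*s^4 -d*g*s^2 -d*g*s^4 -d^2*e*s^5 -d^2*e^3*s^5 -e*g^2*s -e*g^2*s^3) * h

lemma id_B {c s : ℝ} (e a d g : ℝ) (h : s ^ 2 + c ^ 2 = 1) :
    (e * s * (a * c ^ 2 - 2 * g * s * c + d * s ^ 2) + (1 + e * c) * ((d - a) * s * c - g * (c ^ 2 - s ^ 2))) = ((d - a) * s * c - g * (c ^ 2 - s ^ 2)) + e * (d * s - g * c) := by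
  linear_combination (-c*e*g +d*e*s) * h

end Pool.Agent.TH798.CE
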