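import Pool.Agent.TH798.CE.Rolle
import Pool.Agent.TH798.CE.Ids

set_option autoImplicit false

namespace Pool.Agent.TH798.CE

open Set Real

/-- `k = q̂ᵀ S q̂` with `S = !![a, -g; -g, d]` and `q̂ = (cos f, sin f)`. -/
noncomputable def kf (a d g f : ℝ) : ℝ := a * cos f ^ 2 - 2 * g * sin f * cos f + d * sin f ^ 2

/-- Half of the derivative of `k`. -/
noncomputable def lf (a d g f : ℝ) : ℝ :=
  (d - a) * sin f * cos f - g * (cos f ^ 2 - sin f ^ 2)

noncomputable def Bf (e a d g f : ℝ) : ℝ := e * sin f * kf a d g f + (1 + e * cos f) * lf a d g f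

noncomputable def Tf (e a d g f : ℝ) : ℝ :=
  sin f * kf a d g f ^ 2 * (1 + e ^ 2 + 2 * e * cos f)
    - sin f * (a * d - g ^ 2) * (1 + e * cos f) ^ 2
    + lf a d g f * kf a d g f * (1 + e * cos f) * (e + cos f)

noncomputable def Uf (e f : ℝ) : ℝ := 1 + e ^ 2 + e * cos f * (5 - 5 * cos f ^ 2 + 2 * cos f ^ 4)

noncomputable def Gf (e a d g f : ℝ) : ℝ := g * Uf e f + (a - d) * e * sin f ^ 5

lemma hasDerivAt_kf (a d g f : ℝ) : HasDerivAt (kf a d g) (2 * lf a d g f) f := by
  have hs := hasDerivAt_sin f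
  have hc := hasDerivAt_cos f
  have h := (((hc.pow 2).const_mul a).sub (((hs.const_mul (2 * g)).mul hc))).add
    ((hs.pow 2).const_mul d)
  refine (h.congr_deriv ?_).congr_of_eventuallyEq (Filter.Eventually.of_forall fun x => ?_)
  · simp only [lf]; ring
  · simp only [kf, Pi.pow_apply, Pi.mul_apply, Pi.sub_apply, Pi.add_apply]

lemma hasDerivAt_lf (a d g f : ℝ) : HasDerivAt (lf a d g)
    ((a * sin f ^ 2 + 2 * g * sin f * cos f + d * cos f ^ 2) - kf a d g f) f := by
  have hs := hasDerivAt_sin f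
  have hc := hasDerivAt_cos f
  have h := ((hs.const_mul (d - a)).mul hc).sub (((hc.pow 2).sub (hs.pow 2)).const_mul g)
  refine (h.congr_deriv ?_).congr_of_eventuallyEq (Filter.Eventually.of_forall fun x => ?_)
  · simp only [kf]; ring
  · simp only [lf, Pi.pow_apply, Pi.mul_apply, Pi.sub_apply]

lemma hasDerivAt_Uf (e f : ℝ) :
    HasDerivAt (Uf e) (-(5 * e * sin f ^ 3 * (1 - 2 * cos f ^ 2))) f := by
  have hc := hasDerivAt_cos f
  have h := (hasDerivAt_const f (1 + e ^ 2)).add ((hc.const_mul e).mul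
    (((hasDerivAt_const f (5 : ℝ)).sub ((hc.pow 2).const_mul 5)).add ((hc.pow 4).const_mul 2)))
  refine (h.congr_deriv ?_).congr_of_eventuallyEq (Filter.Eventually.of_forall fun x => ?_)
  · have h1 : sin f ^ 3 = sin f * (1 - cos f ^ 2) := by
      rw [← sin_sq]; ring
    rw [h1]; simp only [Pi.pow_apply, Pi.add_apply, Pi.sub_apply]; ring_nf
  · simp only [Uf, Pi.pow_apply, Pi.mul_apply, Pi.sub_apply, Pi.add_apply]

/-- The second key derivative. -/
lemma hasDerivAt_V (e f : ℝ) (hs0 : sin f ≠ 0) :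
    HasDerivAt (fun x => Uf e x / sin x ^ 5)
      (-(5 * (e + cos f) * (1 + e * cos f)) / sin f ^ 6) f := by
  have hs := hasDerivAt_sin f
  have h := (hasDerivAt_Uf e f).div (hs.pow 5) (pow_ne_zero 5 hs0)
  refine (h.congr_deriv ?_).congr_of_eventuallyEq (Filter.Eventually.of_forall fun x => ?_)
  · rw [div_eq_div_iff (by simpa using hs0) (by simpa using hs0)]
    have h2 : sin f ^ 2 + cos f ^ 2 = 1 := sin_sq_add_cos_sq f
    have key : -(5 * e * sin f ^ 3 * (1 - 2 * cos f ^ 2)) * sin f - 5 * cos f * Uf e f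
        = -(5 * (e + cos f) * (1 + e * cos f)) := by
      simp only [Uf]
      linear_combination (15 * cos f ^ 2 * e - 10 * cos f ^ 4 * e - 5 * e
        - (-10 * cos f ^ 2 * e * sin f + 5 * e * sin f) * sin f) * h2
    simp only [Pi.pow_apply]
    linear_combination (sin f ^ 10) * key
  · simp only [Pi.div_apply, Pi.pow_apply]

/-- The first key derivative. -/
lemma hasDerivAt_T (e a d g f : ℝ) (hs0 : sin f ≠ 0) :
    HasDerivAt (fun x => Tf e a d g x / sin x ^ 3)
      (3 * kf a d g f * Gf e a d g f / sin f ^ 4) f := by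
  have hs := hasDerivAt_sin f
  have hc := hasDerivAt_cos f
  have hk := hasDerivAt_kf a d g f
  have hl := hasDerivAt_lf a d g f
  have hD : HasDerivAt (fun x => 1 + e * cos x) (e * -sin f) f := by
    simpa using (hc.const_mul e).const_add 1
  have hE : HasDerivAt (fun x => 1 + e ^ 2 + 2 * e * cos x) (2 * e * -sin f) f := by
    simpa using (hc.const_mul (2 * e)).const_add (1 + e ^ 2)
  have hz : HasDerivAt (fun x => e + cos x) (-sin f) f := by
    simpa using hc.const_add e
  have h1 := (hs.mul (hk.pow 2)).mul hE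
  have h2 := (hs.mul_const (a * d - g ^ 2)).mul (hD.pow 2)
  have h3 := ((hl.mul hk).mul hD).mul hz
  have h := (((h1.sub h2).add h3)).div (hs.pow 3) (pow_ne_zero 3 hs0)
  have h0 : sin f ^ 2 + cos f ^ 2 = 1 := sin_sq_add_cos_sq f
  refine (h.congr_deriv ?_).congr_of_eventuallyEq (Filter.Eventually.of_forall fun x => ?_)
  · rw [div_eq_div_iff (by simpa using hs0) (by simpa using hs0)]
    have key := id_T e a d g h0
    simp only [Pi.pow_apply, Pi.mul_apply, Pi.sub_apply, Pi.add_apply, kf, lf, Gf, Uf]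
    linear_combination (sin f ^ 6) * key
  · simp only [Tf, Pi.div_apply, Pi.pow_apply, Pi.mul_apply, Pi.sub_apply, Pi.add_apply]

/-- The derivative of `(D B)² / (s² k)`. -/
lemma hasDerivAt_R (e a d g f : ℝ) (hs0 : sin f ≠ 0) (hk0 : kf a d g f ≠ 0) :
    HasDerivAt (fun x => ((1 + e * cos x) * Bf e a d g x) ^ 2 / (sin x ^ 2 * kf a d g x))
      (-(2 * (1 + e * cos f) * Bf e a d g f * Tf e a d g f) / (sin f ^ 3 * kf a d g f ^ 2)) f := by
  have hs := hasDerivAt_sin f
  have hc := hasDerivAt_cos f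
  have hk := hasDerivAt_kf a d g f
  have hl := hasDerivAt_lf a d g f
  have hD : HasDerivAt (fun x => 1 + e * cos x) (e * -sin f) f := by
    simpa using (hc.const_mul e).const_add 1
  have hB := ((hs.const_mul e).mul hk).add (hD.mul hl)
  have h := ((hD.mul hB).pow 2).div ((hs.pow 2).mul hk) (mul_ne_zero (pow_ne_zero 2 hs0) hk0)
  have h0 : sin f ^ 2 + cos f ^ 2 = 1 := sin_sq_add_cos_sq f
  refine (h.congr_deriv ?_).congr_of_eventuallyEq (Filter.Eventually.of_forall fun x => ?_)
  · rw [div_eq_div_iff (by simpa using ⟨hs0, hk0⟩) (by simpa using ⟨hs0, hk0⟩)]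
    have key := id_R e a d g h0
    simp only [Pi.pow_apply, Pi.mul_apply, Pi.sub_apply, Pi.add_apply, Bf, Tf, kf, lf]
    set c := cos f
    set s := sin f
    linear_combination (2 * ((1 + e * c) * (e * s * (a * c ^ 2 - 2 * g * s * c + d * s ^ 2) +
      (1 + e * c) * ((d - a) * s * c - g * (c ^ 2 - s ^ 2)))) * s ^ 4 *
        (a * c ^ 2 - 2 * g * s * c + d * s ^ 2) ^ 2) * key
  · simp only [Bf, Pi.div_apply, Pi.pow_apply, Pi.mul_apply, Pi.add_apply]

end Pool.Agent.TH798.CE
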