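import Pool.Agent.TH798.CE.Core

set_option autoImplicit false

namespace Pool.Agent.TH798.CE

open Set Real

lemma sin_pos_I {f : ℝ} (hf : f ∈ Ioo 0 π) : 0 < sin f := sin_pos_of_pos_of_lt_pi hf.1 hf.2

lemma cos_lt_one_I {f : ℝ} (hf : f ∈ Ioo 0 π) : cos f < 1 := by
  nlinarith [sin_pos_I hf, sin_sq_add_cos_sq f, neg_one_le_cos f]

lemma neg_one_lt_cos_I {f : ℝ} (hf : f ∈ Ioo 0 π) : -1 < cos f := by
  nlinarith [sin_pos_I hf, sin_sq_add_cos_sq f, cos_le_one f]

lemma D_pos {e : ℝ} (he0 : 0 < e) (he1 : e < 1) (f : ℝ) : 0 < 1 + e * cos f := by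
  nlinarith [neg_one_le_cos f]

lemma kf_pos {a d g : ℝ} (ha : 0 < a) (hδ : 0 < a * d - g ^ 2) (f : ℝ) : 0 < kf a d g f := by
  have h : a * kf a d g f = (a * cos f - g * sin f) ^ 2 + (a * d - g ^ 2) * sin f ^ 2 := by
    simp only [kf]; ring
  rcases eq_or_ne (sin f) 0 with h0 | h0
  · have h1 : cos f ^ 2 = 1 := by have := sin_sq_add_cos_sq f; rw [h0] at this; linarith
    simp only [kf, h0, h1]; simpa using ha
  · have h2 : 0 < a * kf a d g f := by
      rw [h]
      have : 0 < (a * d - g ^ 2) * sin f ^ 2 := by positivity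
      positivity
    exact (pos_iff_pos_of_mul_pos h2).1 ha

/-- cosine takes a value at most once on `(0, π)`. -/
lemma encard_cos_le_one (v : ℝ) : {f | f ∈ Ioo 0 π ∧ cos f = v}.encard ≤ 1 := by
  rw [Set.encard_le_one_iff]
  intro x y hx hy
  exact injOn_cos (Ioo_subset_Icc_self hx.1) (Ioo_subset_Icc_self hy.1) (hx.2.trans hy.2.symm)

lemma encard_V_le_two {e : ℝ} (he0 : 0 < e) (he1 : e < 1) (v : ℝ) :
    {f | f ∈ Ioo 0 π ∧ Uf e f / sin f ^ 5 = v}.encard ≤ 2 := by
  have h := rolle_encard (a := 0) (b := π) (F := fun x => Uf e x / sin x ^ 5 - v)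
    (F' := fun f => -(5 * (e + cos f) * (1 + e * cos f)) / sin f ^ 6) (n := 1)
    (fun x hx => (hasDerivAt_V e x (sin_pos_I hx).ne').sub_const v) ?_
  · simpa [sub_eq_zero] using h
  · refine le_trans (encard_le_encard ?_) (encard_cos_le_one (-e))
    rintro f ⟨hf, h0⟩
    refine ⟨hf, ?_⟩
    have hs := sin_pos_I hf
    have hD := D_pos he0 he1 f
    rw [div_eq_zero_iff] at h0
    rcases h0 with h0 | h0
    · have : (e + cos f) * (1 + e * cos f) = 0 := by linarith
      rcases mul_eq_zero.1 this with h1 | h1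
      · linarith
      · exact absurd h1 hD.ne'
    · exact absurd h0 (by positivity)

lemma encard_G_le_two {e a d g : ℝ} (he0 : 0 < e) (he1 : e < 1) (hg : g ≠ 0) :
    {f | f ∈ Ioo 0 π ∧ Gf e a d g f = 0}.encard ≤ 2 := by
  refine le_trans (encard_le_encard ?_) (encard_V_le_two he0 he1 (-((a - d) * e) / g))
  rintro f ⟨hf, h0⟩
  refine ⟨hf, ?_⟩
  have hs := sin_pos_I hf
  rw [div_eq_div_iff (by positivity) hg]
  simp only [Gf] at h0
  linarith

lemma encard_T_le_three {e a d g : ℝ} (he0 : 0 < e) (he1 : e < 1) (ha : 0 < a)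
    (hδ : 0 < a * d - g ^ 2) (hg : g ≠ 0) :
    {f | f ∈ Ioo 0 π ∧ Tf e a d g f = 0}.encard ≤ 3 := by
  have h := rolle_encard (a := 0) (b := π) (F := fun x => Tf e a d g x / sin x ^ 3)
    (F' := fun f => 3 * kf a d g f * Gf e a d g f / sin f ^ 4) (n := 2)
    (fun x hx => hasDerivAt_T e a d g x (sin_pos_I hx).ne') ?_
  · refine le_trans (encard_le_encard ?_) h
    rintro f ⟨hf, h0⟩
    exact ⟨hf, by simp [h0]⟩
  · refine le_trans (encard_le_encard ?_) (encard_G_le_two (a := a) (d := d) he0 he1 hg)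
    rintro f ⟨hf, h0⟩
    refine ⟨hf, ?_⟩
    have hs := sin_pos_I hf
    have hk := kf_pos ha hδ f
    rw [div_eq_zero_iff] at h0
    rcases h0 with h0 | h0
    · rcases mul_eq_zero.1 h0 with h1 | h1
      · exact absurd h1 (by positivity)
      · exact h1
    · exact absurd h0 (by positivity)

/-- The algebraic heart of the count on the good arc. -/
lemma alg_pos {e c X₁ X₂ : ℝ} (he0 : 0 < e) (he1 : e < 1) (hc1 : c < 1) (hc0 : -1 < c)
    (hX : 2 * e * |X₂| ≤ X₁) (hX1 : 0 ≤ X₁)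
    (h : 0 < c * X₁ + (1 + 2 * e * c) * X₂) :
    0 < (e + c) * X₁ + (1 + 2 * e ^ 2 + 3 * e * c) * X₂ := by
  have key : (1 + 2 * e * c) * ((e + c) * X₁ + (1 + 2 * e ^ 2 + 3 * e * c) * X₂)
      = (1 + 2 * e ^ 2 + 3 * e * c) * (c * X₁ + (1 + 2 * e * c) * X₂)
        + e * (1 - c ^ 2) * X₁ := by ring
  have hdiff : (e + c) * X₁ + (1 + 2 * e ^ 2 + 3 * e * c) * X₂
      = (c * X₁ + (1 + 2 * e * c) * X₂) + e * (X₁ + (2 * e + c) * X₂) := by ring
  by_cases h1 : 0 < 1 + 2 * e * c ∧ 0 < 1 + 2 * e ^ 2 + 3 * e * c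
  · have h2 : 0 < (1 + 2 * e ^ 2 + 3 * e * c) * (c * X₁ + (1 + 2 * e * c) * X₂) :=
      mul_pos h1.2 h
    have h3 : 0 ≤ e * (1 - c ^ 2) * X₁ := by
      have : 0 ≤ 1 - c ^ 2 := by nlinarith
      positivity
    have h4 : 0 < (1 + 2 * e * c) * ((e + c) * X₁ + (1 + 2 * e ^ 2 + 3 * e * c) * X₂) := by
      rw [key]; linarith
    exact (pos_iff_pos_of_mul_pos h4).1 h1.1
  · have h5 : c < 0 ∧ 1 < 2 * e := by
      rw [not_and_or, not_lt, not_lt] at h1
      rcases h1 with h1 | h1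
      · constructor
        · by_contra hc; rw [not_lt] at hc
          nlinarith [mul_nonneg he0.le hc]
        · nlinarith
      · constructor
        · by_contra hc; rw [not_lt] at hc
          nlinarith [mul_nonneg he0.le hc, mul_pos he0 he0]
        · by_contra he; rw [not_lt] at he
          nlinarith [mul_nonneg (sub_nonneg.2 he1.le) (sub_nonneg.2 he)]
    have h6 : |(2 * e + c) * X₂| ≤ X₁ := by
      rw [abs_mul]
      have : |2 * e + c| ≤ 2 * e := by
        rw [abs_le]; constructor <;> nlinarith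
      calc |2 * e + c| * |X₂| ≤ 2 * e * |X₂| := by gcongr
        _ ≤ X₁ := hX
    have h7 : 0 ≤ X₁ + (2 * e + c) * X₂ := by
      have := neg_abs_le ((2 * e + c) * X₂)
      linarith
    rw [hdiff]
    have : 0 ≤ e * (X₁ + (2 * e + c) * X₂) := by positivity
    linarith

lemma encard_T_le_one {e a d g : ℝ} (he0 : 0 < e) (he1 : e < 1) (ha : 0 < a)
    (hδ : 0 < a * d - g ^ 2) (hg : 0 < g) :
    {f | f ∈ Ioo 0 π ∧ Tf e a d g f = 0}.encard ≤ 1 := by
  have h := encard_le_one_of_deriv_pos (a := 0) (b := π) (F := fun x => Tf e a d g x / sin x ^ 3)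
    (F' := fun f => 3 * kf a d g f * Gf e a d g f / sin f ^ 4)
    (fun x hx => hasDerivAt_T e a d g x (sin_pos_I hx).ne') ?_
  · refine le_trans (encard_le_encard ?_) h
    rintro f ⟨hf, h0⟩
    exact ⟨hf, by simp [h0]⟩
  · intro f hf h0
    have hs := sin_pos_I hf
    have hk := kf_pos ha hδ f
    have hD := D_pos he0 he1 f
    have hT : Tf e a d g f = 0 := by
      rw [div_eq_zero_iff] at h0
      rcases h0 with h0 | h0
      · exact h0
      · exact absurd h0 (by positivity)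
    have hcs := sin_sq_add_cos_sq f
    have i1 := id_G e a d g hcs
    have i2 := id_P e a d g hcs
    have hT' := hT
    simp only [Tf, kf, lf] at hT'
    rw [hT'] at i1 i2
    simp only [mul_zero, sub_zero] at i1 i2
    change g * kf a d g f * (1 + e * cos f) ^ 2 = sin f * (cos f *
      ((1 + e * cos f) ^ 2 * lf a d g f ^ 2 + e ^ 2 * sin f ^ 2 * kf a d g f ^ 2)
      + (1 + 2 * e * cos f) * (sin f * (1 + e * cos f) * lf a d g f * kf a d g f)) at i1
    change (1 + e * cos f) * kf a d g f * Gf e a d g f = sin f * ((e + cos f) *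
      ((1 + e * cos f) ^ 2 * lf a d g f ^ 2 + e ^ 2 * sin f ^ 2 * kf a d g f ^ 2)
      + (1 + 2 * e ^ 2 + 3 * e * cos f) *
        (sin f * (1 + e * cos f) * lf a d g f * kf a d g f)) at i2
    have hpos := alg_pos (c := cos f)
      (X₁ := (1 + e * cos f) ^ 2 * lf a d g f ^ 2 + e ^ 2 * sin f ^ 2 * kf a d g f ^ 2)
      (X₂ := sin f * (1 + e * cos f) * lf a d g f * kf a d g f) he0 he1
      (cos_lt_one_I hf) (neg_one_lt_cos_I hf) ?_ (by positivity) ?_
    · have h3 : 0 < (1 + e * cos f) * kf a d g f * Gf e a d g f := by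
        rw [i2]; exact mul_pos hs hpos
      have h4 : 0 < Gf e a d g f := (pos_iff_pos_of_mul_pos h3).1 (by positivity)
      positivity
    · rw [show sin f * (1 + e * cos f) * lf a d g f * kf a d g f
        = ((1 + e * cos f) * lf a d g f) * (sin f * kf a d g f) by ring, abs_mul]
      nlinarith [sq_nonneg (|(1 + e * cos f) * lf a d g f| - e * |sin f * kf a d g f|),
        sq_abs ((1 + e * cos f) * lf a d g f), sq_abs (sin f * kf a d g f)]
    · have h5 : 0 < g * kf a d g f * (1 + e * cos f) ^ 2 := by positivity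
      rw [i1] at h5
      exact (pos_iff_pos_of_mul_pos h5).1 hs

end Pool.Agent.TH798.CE
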