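import Pool.Agent.TH798.CE.Count

set_option autoImplicit false

namespace Pool.Agent.TH798.CE

open Set Real

lemma Bf_eq (e a d g f : ℝ) :
    Bf e a d g f = lf a d g f + e * (d * sin f - g * cos f) := by
  have := id_B e a d g (sin_sq_add_cos_sq f)
  simpa only [Bf, kf, lf] using this

/-- The polynomial in `tan (f/2)` behind `B`. -/
noncomputable def pB (e a d g : ℝ) : Polynomial ℝ :=
  Polynomial.C (-g * (1 - e)) * Polynomial.X ^ 4 + Polynomial.C (2 * (e * d - d + a)) * Polynomial.X ^ 3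
    + Polynomial.C (6 * g) * Polynomial.X ^ 2 + Polynomial.C (2 * (d - a + e * d)) * Polynomial.X
    + Polynomial.C (-g * (1 + e))

lemma pB_eval (e a d g t : ℝ) : (pB e a d g).eval t =
    -g * (1 - e) * t ^ 4 + 2 * (e * d - d + a) * t ^ 3 + 6 * g * t ^ 2 + 2 * (d - a + e * d) * t
      + -g * (1 + e) := by
  simp [pB]

lemma pB_ne_zero {e a d g : ℝ} (he1 : e < 1) (he0 : 0 < e) (hg : g ≠ 0) : pB e a d g ≠ 0 := by
  intro h
  have := pB_eval e a d g 0
  rw [h] at this
  simp at this
  rcases this with h | h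
  · exact hg h
  · linarith

lemma pB_natDegree (e a d g : ℝ) : (pB e a d g).natDegree ≤ 4 := by
  unfold pB; compute_degree

lemma pB_root {e a d g f : ℝ} (hf : f ∈ Ioo 0 π) (h : Bf e a d g f = 0) :
    (pB e a d g).eval (tan (f / 2)) = 0 := by
  have hC : 0 < cos (f / 2) := cos_pos_of_mem_Ioo ⟨by linarith [hf.1, pi_pos], by linarith [hf.2]⟩
  rw [Bf_eq, lf] at h
  have h1 : sin f = 2 * sin (f / 2) * cos (f / 2) := by rw [← sin_two_mul]; ring_nf
  have h2 : cos f = cos (f / 2) ^ 2 - sin (f / 2) ^ 2 := by rw [← cos_two_mul']; ring_nf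
  have h3 := sin_sq_add_cos_sq (f / 2)
  rw [h1, h2] at h
  rw [pB_eval, tan_eq_sin_div_cos]
  set C := cos (f / 2)
  set S := sin (f / 2)
  have h4 : (-g * (1 - e) * (S / C) ^ 4 + 2 * (e * d - d + a) * (S / C) ^ 3 + 6 * g * (S / C) ^ 2
      + 2 * (d - a + e * d) * (S / C) + -g * (1 + e)) * C ^ 4 = 0 := by
    have h5 : (-g * (1 - e) * (S / C) ^ 4 + 2 * (e * d - d + a) * (S / C) ^ 3 + 6 * g * (S / C) ^ 2
      + 2 * (d - a + e * d) * (S / C) + -g * (1 + e)) * C ^ 4
      = -g * (1 + e) * C ^ 4 + 2 * (d - a + e * d) * S * C ^ 3 + 6 * g * S ^ 2 * C ^ 2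
        + 2 * (e * d - d + a) * S ^ 3 * C - g * (1 - e) * S ^ 4 := by
      field_simp
      ring
    rw [h5]
    linear_combination h + (2*C*S*d*e -C^2*e*g +S^2*e*g) * h3
  rcases mul_eq_zero.1 h4 with h5 | h5
  · exact h5
  · exact absurd h5 (by positivity)

lemma pB_neg {e a d g t : ℝ} (h : (pB e a d (-g)).eval t = 0) : (pB e a d g).eval (-t) = 0 := by
  rw [pB_eval] at h ⊢
  linarith

/-- On the two open arcs together `B` has at most four zeros. -/
lemma encard_B_add_le {e a d g : ℝ} (he0 : 0 < e) (he1 : e < 1) (hg : g ≠ 0) :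
    {f | f ∈ Ioo 0 π ∧ Bf e a d g f = 0}.encard + {f | f ∈ Ioo 0 π ∧ Bf e a d (-g) f = 0}.encard
      ≤ 4 := by
  classical
  set Z₁ := {f | f ∈ Ioo 0 π ∧ Bf e a d g f = 0}
  set Z₂ := {f | f ∈ Ioo 0 π ∧ Bf e a d (-g) f = 0}
  have hinj : InjOn (fun f : ℝ => tan (f / 2)) (Ioo 0 π) := by
    intro x hx y hy hxy
    have := injOn_tan (by constructor <;> linarith [hx.1, hx.2, pi_pos] : x / 2 ∈ Ioo (-(π / 2)) (π / 2))
      (by constructor <;> linarith [hy.1, hy.2, pi_pos] : y / 2 ∈ Ioo (-(π / 2)) (π / 2)) hxy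
    linarith
  have htpos : ∀ f ∈ Ioo 0 π, 0 < tan (f / 2) := fun f hf =>
    tan_pos_of_pos_of_lt_pi_div_two (by linarith [hf.1]) (by linarith [hf.2])
  have e1 : ((fun f : ℝ => tan (f / 2)) '' Z₁).encard = Z₁.encard :=
    InjOn.encard_image (hinj.mono fun f hf => hf.1)
  have e2 : ((fun f : ℝ => -tan (f / 2)) '' Z₂).encard = Z₂.encard := by
    refine InjOn.encard_image ?_
    intro x hx y hy hxy
    exact hinj hx.1 hy.1 (neg_injective hxy)
  rw [← e1, ← e2, ← encard_union_eq]
  · have hsub : ((fun f : ℝ => tan (f / 2)) '' Z₁) ∪ ((fun f : ℝ => -tan (f / 2)) '' Z₂)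
        ⊆ ((pB e a d g).roots.toFinset : Set ℝ) := by
      rintro t (⟨f, hf, rfl⟩ | ⟨f, hf, rfl⟩)
      · simp only [Finset.mem_coe, Multiset.mem_toFinset]
        exact (Polynomial.mem_roots (pB_ne_zero he1 he0 hg)).2 (pB_root hf.1 hf.2)
      · simp only [Finset.mem_coe, Multiset.mem_toFinset]
        exact (Polynomial.mem_roots (pB_ne_zero he1 he0 hg)).2 (pB_neg (pB_root hf.1 hf.2))
    refine (encard_le_encard hsub).trans ?_
    rw [encard_coe_eq_coe_finsetCard]
    have h4 : (pB e a d g).roots.toFinset.card ≤ 4 :=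
      (Multiset.toFinset_card_le _).trans ((Polynomial.card_roots' _).trans (pB_natDegree e a d g))
    exact_mod_cast h4
  · rw [Set.disjoint_left]
    rintro t ⟨f, hf, rfl⟩ ⟨f', hf', h⟩
    have h1 := htpos f hf.1
    have h2 := htpos f' hf'.1
    simp only at h
    linarith

/-- Rolle for `R`. -/
lemma encard_R_le {e a d g μ : ℝ} (he0 : 0 < e) (he1 : e < 1) (ha : 0 < a)
    (hδ : 0 < a * d - g ^ 2) {p q : ℕ}
    (hp : {f | f ∈ Ioo 0 π ∧ Bf e a d g f = 0}.encard ≤ p)
    (hq : {f | f ∈ Ioo 0 π ∧ Tf e a d g f = 0}.encard ≤ q) :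
    {f | f ∈ Ioo 0 π ∧ ((1 + e * cos f) * Bf e a d g f) ^ 2 = μ * (sin f ^ 2 * kf a d g f)}.encard
      ≤ ((p + q + 1 : ℕ) : ℕ∞) := by
  have h := rolle_encard (a := 0) (b := π)
    (F := fun x => ((1 + e * cos x) * Bf e a d g x) ^ 2 / (sin x ^ 2 * kf a d g x) - μ)
    (F' := fun f => -(2 * (1 + e * cos f) * Bf e a d g f * Tf e a d g f)
      / (sin f ^ 3 * kf a d g f ^ 2)) (n := p + q)
    (fun x hx => (hasDerivAt_R e a d g x (sin_pos_I hx).ne' (kf_pos ha hδ x).ne').sub_const μ) ?_
  · refine le_trans (encard_le_encard ?_) h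
    rintro f ⟨hf, h0⟩
    refine ⟨hf, ?_⟩
    have hs := sin_pos_I hf
    have hk := kf_pos ha hδ f
    rw [sub_eq_zero, div_eq_iff (by positivity)]
    exact h0
  · push_cast
    refine le_trans (encard_le_encard ?_) ((encard_union_le _ _).trans (add_le_add hp hq))
    rintro f ⟨hf, h0⟩
    have hs := sin_pos_I hf
    have hk := kf_pos ha hδ f
    have hD := D_pos he0 he1 f
    rw [div_eq_zero_iff] at h0
    rcases h0 with h0 | h0
    · rw [neg_eq_zero] at h0
      rcases mul_eq_zero.1 h0 with h1 | h1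
      · rcases mul_eq_zero.1 h1 with h2 | h2
        · exact absurd h2 (by positivity)
        · exact Or.inl ⟨hf, h2⟩
      · exact Or.inr ⟨hf, h1⟩
    · exact absurd h0 (by positivity)

/-- Case `g ≠ 0`: at most ten solutions on the two open arcs together. -/
lemma encard_caseA {e a d g μ : ℝ} (he0 : 0 < e) (he1 : e < 1) (ha : 0 < a)
    (hδ : 0 < a * d - g ^ 2) (hg : g ≠ 0) :
    {f | f ∈ Ioo 0 π ∧ ((1 + e * cos f) * Bf e a d g f) ^ 2 = μ * (sin f ^ 2 * kf a d g f)}.encard
    + {f | f ∈ Ioo 0 π ∧ ((1 + e * cos f) * Bf e a d (-g) f) ^ 2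
        = μ * (sin f ^ 2 * kf a d (-g) f)}.encard ≤ 10 := by
  wlog hg' : 0 < g generalizing g
  · have := this (g := -g) (by simpa using hδ) (neg_ne_zero.2 hg)
      (by rcases lt_or_gt_of_ne hg with h | h
          · linarith
          · exact absurd h hg')
    rw [neg_neg, add_comm] at this
    exact this
  have hB := encard_B_add_le (a := a) (d := d) he0 he1 hg
  set x := {f | f ∈ Ioo 0 π ∧ Bf e a d g f = 0}.encard with hx
  set y := {f | f ∈ Ioo 0 π ∧ Bf e a d (-g) f = 0}.encard with hy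
  have hx' : x ≠ ⊤ := by
    intro h; rw [h] at hB; simp at hB
  have hy' : y ≠ ⊤ := by
    intro h; rw [h] at hB; simp at hB
  lift x to ℕ using hx' with p hp
  lift y to ℕ using hy' with q hq
  have hpq : p + q ≤ 4 := by exact_mod_cast hB
  have h1 := encard_R_le (μ := μ) he0 he1 ha hδ (p := p) (q := 1) (le_of_eq hx.symm)
    (by exact_mod_cast encard_T_le_one he0 he1 ha hδ hg')
  have h2 := encard_R_le (μ := μ) (g := -g) he0 he1 ha (by simpa using hδ) (p := q) (q := 3)
    (le_of_eq hy.symm)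
    (by exact_mod_cast encard_T_le_three he0 he1 ha (by simpa using hδ) (neg_ne_zero.2 hg))
  refine (add_le_add h1 h2).trans ?_
  have : p + 1 + 1 + (q + 3 + 1) ≤ 10 := by omega
  exact_mod_cast this

/-- Case `g = 0`: at most three solutions on an open arc. -/
lemma encard_caseB {e a d μ : ℝ} (he0 : 0 < e) (he1 : e < 1) (ha : 0 < a) (hd : 0 < d) :
    {f | f ∈ Ioo 0 π ∧ ((1 + e * cos f) * Bf e a d 0 f) ^ 2 = μ * (sin f ^ 2 * kf a d 0 f)}.encard
      ≤ 3 := by
  have hδ : 0 < a * d - (0 : ℝ) ^ 2 := by simpa using mul_pos ha hd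
  refine encard_R_le (μ := μ) he0 he1 ha hδ (p := 1) (q := 1) ?_ ?_
  · -- zeros of B
    rcases eq_or_ne d a with hda | hda
    · refine le_trans (le_of_eq ?_) zero_le
      rw [encard_eq_zero, eq_empty_iff_forall_notMem]
      rintro f ⟨hf, h0⟩
      rw [Bf_eq, lf, hda] at h0
      have hs := sin_pos_I hf
      have : e * (a * sin f) = 0 := by linarith
      exact absurd this (by positivity)
    · refine le_trans (encard_le_encard ?_) (encard_cos_le_one (-(e * d) / (d - a)))
      rintro f ⟨hf, h0⟩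
      refine ⟨hf, ?_⟩
      rw [Bf_eq, lf] at h0
      have hs := sin_pos_I hf
      have h1 : sin f * ((d - a) * cos f + e * d) = 0 := by linarith
      rcases mul_eq_zero.1 h1 with h2 | h2
      · exact absurd h2 hs.ne'
      · rw [eq_div_iff (sub_ne_zero.2 hda)]
        linarith
  · rcases eq_or_ne a d with hda | hda
    · refine le_trans (le_of_eq ?_) zero_le
      rw [encard_eq_zero, eq_empty_iff_forall_notMem]
      rintro f ⟨hf, h0⟩
      have hs := sin_pos_I hf
      have h2 := sin_sq_add_cos_sq f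
      have hk : kf a a 0 f = a := by
        simp only [kf]; linear_combination a * h2
      rw [← hda] at h0
      simp only [Tf, hk, lf] at h0
      have h3 : a ^ 2 * e ^ 2 * sin f ^ 3 = 0 := by
        linear_combination h0 + a ^ 2 * e ^ 2 * sin f * h2
      exact absurd h3 (by positivity)
    · have h := rolle_encard (a := 0) (b := π) (F := fun x => Tf e a d 0 x / sin x ^ 3)
        (F' := fun f => 3 * kf a d 0 f * Gf e a d 0 f / sin f ^ 4) (n := 0)
        (fun x hx => hasDerivAt_T e a d 0 x (sin_pos_I hx).ne') ?_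
      · refine le_trans (encard_le_encard ?_) h
        rintro f ⟨hf, h0⟩
        exact ⟨hf, by simp [h0]⟩
      · refine le_of_eq ?_
        rw [Nat.cast_zero, encard_eq_zero, eq_empty_iff_forall_notMem]
        rintro f ⟨hf, h0⟩
        have hs := sin_pos_I hf
        have hk := kf_pos ha hδ f
        rw [div_eq_zero_iff] at h0
        rcases h0 with h0 | h0
        · rcases mul_eq_zero.1 h0 with h1 | h1
          · exact absurd h1 (by positivity)
          · simp only [Gf, zero_mul, zero_add] at h1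
            rcases mul_eq_zero.1 h1 with h2 | h2
            · rcases mul_eq_zero.1 h2 with h3 | h3
              · exact hda (sub_eq_zero.1 h3)
              · exact absurd h3 he0.ne'
            · exact absurd h2 (by positivity)
        · exact absurd h0 (by positivity)

end Pool.Agent.TH798.CE
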