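import Pool.Agent.TH798.CE.Count

set_option autoImplicit false

namespace Pool.Agent.TH798.CE

open Set Real

/-- `U_c = 1 + e² + e c (3 - c²)`. -/
noncomputable def Ucf (e f : ℝ) : ℝ := 1 + e ^ 2 + e * cos f * (3 - cos f ^ 2)

lemma Ucf_pos {e : ℝ} (he0 : 0 < e) (he1 : e < 1) (f : ℝ) : 0 < Ucf e f := by
  have h : Ucf e f = (1 - e) ^ 2 + e * (1 + cos f) ^ 2 * (2 - cos f) := by
    simp only [Ucf]; ring
  rw [h]
  have h1 : 0 < (1 - e) ^ 2 := by
    have : 0 < 1 - e := by linarith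
    positivity
  have h2 : 0 ≤ 2 - cos f := by linarith [cos_le_one f]
  positivity

lemma hasDerivAt_Vc (e f : ℝ) (hs0 : sin f ≠ 0) :
    HasDerivAt (fun x => Ucf e x / sin x ^ 3)
      (-(3 * (e + cos f) * (1 + e * cos f)) / sin f ^ 4) f := by
  have hs := hasDerivAt_sin f
  have hc := hasDerivAt_cos f
  have hU : HasDerivAt (Ucf e) (-(3 * e * sin f ^ 3)) f := by
    have h := (hasDerivAt_const f (1 + e ^ 2)).add ((hc.const_mul e).mul
      ((hasDerivAt_const f (3 : ℝ)).sub (hc.pow 2)))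
    refine (h.congr_deriv ?_).congr_of_eventuallyEq (Filter.Eventually.of_forall fun x => ?_)
    · have h1 : sin f ^ 3 = sin f * (1 - cos f ^ 2) := by
        rw [← sin_sq]; ring
      rw [h1]; simp only [Pi.pow_apply, Pi.sub_apply]; ring_nf
    · simp only [Ucf, Pi.pow_apply, Pi.mul_apply, Pi.sub_apply, Pi.add_apply]
  have h := hU.div (hs.pow 3) (pow_ne_zero 3 hs0)
  refine (h.congr_deriv ?_).congr_of_eventuallyEq (Filter.Eventually.of_forall fun x => ?_)
  · rw [div_eq_div_iff (by simpa using hs0) (by simpa using hs0)]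
    have h2 : sin f ^ 2 = 1 - cos f ^ 2 := sin_sq f
    have key : -(3 * e * sin f ^ 3) * sin f - 3 * cos f * Ucf e f
        = -(3 * (e + cos f) * (1 + e * cos f)) := by
      have h4 : sin f ^ 3 * sin f = (1 - cos f ^ 2) ^ 2 := by rw [← h2]; ring
      simp only [Ucf]
      linear_combination (-3 * e) * h4
    simp only [Pi.pow_apply]
    linear_combination (sin f ^ 6) * key
  · simp only [Pi.div_apply, Pi.pow_apply]

noncomputable def Tcf (e α β f : ℝ) : ℝ := α * Ucf e f + β * e * sin f ^ 3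

noncomputable def Wcf (e α β f : ℝ) : ℝ := (1 + e * cos f) * (β * sin f + α * (e + cos f))

lemma hasDerivAt_Wc (e α β f : ℝ) (hs0 : sin f ≠ 0) :
    HasDerivAt (fun x => Wcf e α β x / sin x) (-(Tcf e α β f) / sin f ^ 2) f := by
  have hs := hasDerivAt_sin f
  have hc := hasDerivAt_cos f
  have hD : HasDerivAt (fun x => 1 + e * cos x) (e * -sin f) f := by
    simpa using (hc.const_mul e).const_add 1
  have hz : HasDerivAt (fun x => e + cos x) (-sin f) f := by
    simpa using hc.const_add e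
  have h := (hD.mul ((hs.const_mul β).add (hz.const_mul α))).div hs hs0
  refine (h.congr_deriv ?_).congr_of_eventuallyEq (Filter.Eventually.of_forall fun x => ?_)
  · rw [div_eq_div_iff (by simpa using hs0) (by simpa using hs0)]
    simp only [Tcf, Ucf, Pi.mul_apply, Pi.add_apply]
    have h2 : sin f ^ 2 + cos f ^ 2 = 1 := sin_sq_add_cos_sq f
    set c := cos f
    set s := sin f
    have key : (e * -s * (β * s + α * (e + c)) + (1 + e * c) * (β * c + α * -s)) * s
        - (1 + e * c) * (β * s + α * (e + c)) * c = -(α * (1 + e ^ 2 + e * c * (3 - c ^ 2)) + β * e * s ^ 3) := by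
      linear_combination (-2*c*e*α -e^2*α -α) * h2
    linear_combination (s ^ 2) * key
  · simp only [Wcf, Pi.div_apply, Pi.mul_apply, Pi.add_apply]

lemma encard_Tc_le_two {e α β : ℝ} (he0 : 0 < e) (he1 : e < 1) (hα : α ≠ 0) :
    {f | f ∈ Ioo 0 π ∧ Tcf e α β f = 0}.encard ≤ 2 := by
  have h := rolle_encard (a := 0) (b := π) (F := fun x => Ucf e x / sin x ^ 3 - (-(β * e) / α))
    (F' := fun f => -(3 * (e + cos f) * (1 + e * cos f)) / sin f ^ 4) (n := 1)
    (fun x hx => (hasDerivAt_Vc e x (sin_pos_I hx).ne').sub_const _) ?_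
  · refine le_trans (encard_le_encard ?_) h
    rintro f ⟨hf, h0⟩
    refine ⟨hf, ?_⟩
    have hs := sin_pos_I hf
    rw [sub_eq_zero, div_eq_div_iff (by positivity) hα]
    simp only [Tcf] at h0
    linarith
  · refine le_trans (encard_le_encard ?_) (encard_cos_le_one (-e))
    rintro f ⟨hf, h0⟩
    refine ⟨hf, ?_⟩
    have hs := sin_pos_I hf
    have hD := D_pos he0 he1 f
    rw [div_eq_zero_iff] at h0
    rcases h0 with h0 | h0
    · have : (e + cos f) * (1 + e * cos f) = 0 := by linarith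
      rcases mul_eq_zero.1 this with h1 | h1
      · linarith
      · exact absurd h1 hD.ne'
    · exact absurd h0 (by positivity)

lemma encard_Tc_eq_zero {e α β : ℝ} (he0 : 0 < e) (he1 : e < 1) (hα : α ≠ 0)
    (hαβ : 0 ≤ α * β) :
    {f | f ∈ Ioo 0 π ∧ Tcf e α β f = 0}.encard ≤ 0 := by
  refine le_of_eq ?_
  rw [encard_eq_zero, eq_empty_iff_forall_notMem]
  rintro f ⟨hf, h0⟩
  have hs := sin_pos_I hf
  have hU := Ucf_pos he0 he1 f
  have h1 : 0 < α * Tcf e α β f := by
    have : α * Tcf e α β f = α ^ 2 * Ucf e f + (α * β) * (e * sin f ^ 3) := by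
      simp only [Tcf]; ring
    rw [this]
    have : 0 < α ^ 2 * Ucf e f := by positivity
    positivity
  rw [h0, mul_zero] at h1
  exact lt_irrefl _ h1

lemma encard_W0_le_one {e α β : ℝ} (he0 : 0 < e) (he1 : e < 1) (hα : α ≠ 0) :
    {f | f ∈ Ioo 0 π ∧ Wcf e α β f = 0}.encard ≤ 1 := by
  have h := rolle_encard (a := 0) (b := π) (F := fun x => (e + cos x) / sin x - (-β / α))
    (F' := fun f => -(1 + e * cos f) / sin f ^ 2) (n := 0) ?_ ?_
  · refine le_trans (encard_le_encard ?_) h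
    rintro f ⟨hf, h0⟩
    refine ⟨hf, ?_⟩
    have hs := sin_pos_I hf
    have hD := D_pos he0 he1 f
    simp only [Wcf] at h0
    rcases mul_eq_zero.1 h0 with h1 | h1
    · exact absurd h1 hD.ne'
    · rw [sub_eq_zero, div_eq_div_iff hs.ne' hα]
      linarith
  · intro f hf
    have hs0 := (sin_pos_I hf).ne'
    have h := (((hasDerivAt_cos f).const_add e).div (hasDerivAt_sin f) hs0).sub_const (-β / α)
    refine h.congr_deriv ?_
    rw [div_eq_div_iff (by simpa using hs0) (by simpa using hs0)]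
    linear_combination (-(sin f ^ 2)) * (sin_sq_add_cos_sq f)
  · refine le_of_eq ?_
    rw [Nat.cast_zero, encard_eq_zero, eq_empty_iff_forall_notMem]
    rintro f ⟨hf, h0⟩
    have hs := sin_pos_I hf
    have hD := D_pos he0 he1 f
    rw [div_eq_zero_iff] at h0
    rcases h0 with h0 | h0
    · exact absurd (neg_eq_zero.1 h0) hD.ne'
    · exact absurd h0 (by positivity)

lemma encard_Wc_le {e α β μ : ℝ} {p q : ℕ}
    (hp : {f | f ∈ Ioo 0 π ∧ Wcf e α β f = 0}.encard ≤ p)
    (hq : {f | f ∈ Ioo 0 π ∧ Tcf e α β f = 0}.encard ≤ q) :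
    {f | f ∈ Ioo 0 π ∧ Wcf e α β f ^ 2 = μ * sin f ^ 2}.encard ≤ ((p + q + 1 : ℕ) : ℕ∞) := by
  have h := rolle_encard (a := 0) (b := π)
    (F := fun x => (Wcf e α β x / sin x) ^ 2 - μ)
    (F' := fun f => 2 * (Wcf e α β f / sin f) * (-(Tcf e α β f) / sin f ^ 2)) (n := p + q)
    ?_ ?_
  · refine le_trans (encard_le_encard ?_) h
    rintro f ⟨hf, h0⟩
    refine ⟨hf, ?_⟩
    have hs := sin_pos_I hf
    rw [sub_eq_zero, div_pow, div_eq_iff (by positivity)]
    exact h0
  · intro f hf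
    have h := ((hasDerivAt_Wc e α β f (sin_pos_I hf).ne').pow 2).sub_const μ
    refine h.congr_deriv ?_
    norm_num
  · push_cast
    refine le_trans (encard_le_encard ?_) ((encard_union_le _ _).trans (add_le_add hp hq))
    rintro f ⟨hf, h0⟩
    have hs := sin_pos_I hf
    rcases mul_eq_zero.1 h0 with h1 | h1
    · left
      refine ⟨hf, ?_⟩
      rcases mul_eq_zero.1 h1 with h2 | h2
      · norm_num at h2
      · rcases div_eq_zero_iff.1 h2 with h3 | h3
        · exact h3
        · exact absurd h3 hs.ne'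
    · right
      refine ⟨hf, ?_⟩
      rcases div_eq_zero_iff.1 h1 with h3 | h3
      · exact neg_eq_zero.1 h3
      · exact absurd h3 (by positivity)

/-- Case `α ≠ 0`, `δ = 0`. -/
lemma encard_caseC {e α β μ : ℝ} (he0 : 0 < e) (he1 : e < 1) (hα : α ≠ 0) :
    {f | f ∈ Ioo 0 π ∧ Wcf e α β f ^ 2 = μ * sin f ^ 2}.encard
    + {f | f ∈ Ioo 0 π ∧ Wcf e α (-β) f ^ 2 = μ * sin f ^ 2}.encard ≤ 6 := by
  wlog hαβ : 0 ≤ α * β generalizing β
  · have := this (β := -β) (by nlinarith [not_le.1 hαβ])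
    rw [neg_neg, add_comm] at this
    exact this
  have h1 := encard_Wc_le (μ := μ) (β := β) (p := 1) (q := 0)
    (by exact_mod_cast encard_W0_le_one he0 he1 hα)
    (by exact_mod_cast encard_Tc_eq_zero he0 he1 hα hαβ)
  have h2 := encard_Wc_le (μ := μ) (β := -β) (p := 1) (q := 2)
    (by exact_mod_cast encard_W0_le_one he0 he1 hα)
    (by exact_mod_cast encard_Tc_le_two he0 he1 hα)
  refine (add_le_add h1 h2).trans ?_
  norm_num

lemma encard_caseC0 {e β μ : ℝ} (he0 : 0 < e) (he1 : e < 1) (hβ : β ^ 2 = 1) :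
    {f | f ∈ Ioo 0 π ∧ Wcf e 0 β f ^ 2 = μ * sin f ^ 2}.encard ≤ 1 := by
  rw [Set.encard_le_one_iff]
  rintro x y ⟨hx, hx0⟩ ⟨hy, hy0⟩
  have key : ∀ f ∈ Ioo 0 π, Wcf e 0 β f ^ 2 = μ * sin f ^ 2 → (1 + e * cos f) ^ 2 = μ := by
    intro f hf h
    have hs := sin_pos_I hf
    have h1 : (1 + e * cos f) ^ 2 * sin f ^ 2 = μ * sin f ^ 2 := by
      rw [← h]; simp only [Wcf]; linear_combination (-(1 + e * cos f) ^ 2 * sin f ^ 2) * hβ
    exact mul_right_cancel₀ (pow_ne_zero 2 hs.ne') h1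
  have h1 := (key x hx hx0).trans (key y hy hy0).symm
  have h2 := (pow_left_inj₀ (D_pos he0 he1 x).le (D_pos he0 he1 y).le two_ne_zero).1 h1
  have h3 : cos x = cos y := by
    have : e * cos x = e * cos y := by linarith
    exact mul_left_cancel₀ he0.ne' this
  exact injOn_cos (Ioo_subset_Icc_self hx) (Ioo_subset_Icc_self hy) h3

end Pool.Agent.TH798.CE
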