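import Pool.Agent.TH798.CE.TenC

set_option autoImplicit false

namespace Pool.Agent.TH798.CE

open Set Real

abbrev V3 := EuclideanSpace ℝ (Fin 3)

lemma exists_third {u₁ w₁ : V3} (hu : ‖u₁‖ = 1) (hw : ‖w₁‖ = 1) (huw : inner ℝ u₁ w₁ = 0) :
    ∃ n : V3, ∀ x y : V3, inner ℝ x y = inner ℝ x u₁ * inner ℝ u₁ y + inner ℝ x w₁ * inner ℝ w₁ y
      + inner ℝ x n * inner ℝ n y := by
  have hu' : inner ℝ u₁ u₁ = (1 : ℝ) := by rw [real_inner_self_eq_norm_sq, hu]; norm_num
  have hw' : inner ℝ w₁ w₁ = (1 : ℝ) := by rw [real_inner_self_eq_norm_sq, hw]; norm_num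
  have hwu : inner ℝ w₁ u₁ = (0 : ℝ) := by rw [real_inner_comm]; exact huw
  obtain ⟨b, hb⟩ := Orthonormal.exists_orthonormalBasis_extension_of_card_eq (𝕜 := ℝ) (E := V3)
    (ι := Fin 3) (by simp) (v := ![u₁, w₁, 0]) (s := {0, 1}) (by
      rw [orthonormal_iff_ite]
      rintro ⟨i, hi⟩ ⟨j, hj⟩
      simp only [mem_insert_iff, mem_singleton_iff] at hi hj
      rcases hi with rfl | rfl <;> rcases hj with rfl | rfl <;>
        simp [Set.domRestrict, huw, hwu, hu, hw])
  have h0 : b 0 = u₁ := by simpa using hb 0 (by simp)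
  have h1 : b 1 = w₁ := by simpa using hb 1 (by simp)
  refine ⟨b 2, fun x y => ?_⟩
  rw [← b.sum_inner_mul_inner x y, Fin.sum_univ_three, h0, h1]

/-- The circle with centre `F`, radius `r`, in the plane `F + span (u, w)`. -/
noncomputable def circlePt (F u w : V3) (r s : ℝ) : V3 :=
  F + (r * cos s) • u + (r * sin s) • w

/-- The ellipse with one focus at `F`, semi-major axis `a` along `u`, eccentricity `e`, in the plane
`F + span (u, w)` (`t` is an eccentric anomaly). -/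
noncomputable def ellipsePt (F u w : V3) (a e t : ℝ) : V3 :=
  F + (a * (e + cos t)) • u + (a * √(1 - e ^ 2) * sin t) • w

lemma hasDerivAt_circlePt (F u w : V3) (r s : ℝ) :
    HasDerivAt (circlePt F u w r) ((-(r * sin s)) • u + (r * cos s) • w) s := by
  have h := (((((hasDerivAt_cos s).const_mul r).smul_const u)).const_add F).add
    (((hasDerivAt_sin s).const_mul r).smul_const w)
  refine (h.congr_deriv ?_).congr_of_eventuallyEq (Filter.Eventually.of_forall fun x => ?_)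
  · simp
  · simp [circlePt]

lemma hasDerivAt_ellipsePt (F u w : V3) (a e t : ℝ) :
    HasDerivAt (ellipsePt F u w a e) ((-(a * sin t)) • u + (a * √(1 - e ^ 2) * cos t) • w) t := by
  have h := ((((((hasDerivAt_cos t).const_add e).const_mul a).smul_const u)).const_add F).add
    (((hasDerivAt_sin t).const_mul (a * √(1 - e ^ 2))).smul_const w)
  refine (h.congr_deriv ?_).congr_of_eventuallyEq (Filter.Eventually.of_forall fun x => ?_)
  · simp
  · simp [ellipsePt]

/-- `(s, t)` is a stationary parameter pair of the squared distance. -/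
def IsStationary (c E : ℝ → V3) (s t : ℝ) : Prop :=
  HasDerivAt (fun s' => ‖c s' - E t‖ ^ 2) 0 s ∧ HasDerivAt (fun t' => ‖c s - E t'‖ ^ 2) 0 t

lemma IsStationary.inner_eq {c E : ℝ → V3} {c' E' : V3} {s t : ℝ} (h : IsStationary c E s t)
    (hc : HasDerivAt c c' s) (hE : HasDerivAt E E' t) :
    inner ℝ (c s - E t) c' = 0 ∧ inner ℝ (c s - E t) E' = 0 := by
  constructor
  · have h1 := (hc.sub_const (E t)).norm_sq
    have h2 := h1.unique h.1
    linarith
  · have h1 := (hE.const_sub (c s)).norm_sq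
    have h2 := h1.unique h.2
    rw [inner_neg_right] at h2
    linarith

lemma stationary_encard {F u₁ w₁ u₂ w₂ : V3} {r a e : ℝ} (hr : 0 < r) (ha : 0 < a) (he0 : 0 < e)
    (he1 : e < 1) (hu₁ : ‖u₁‖ = 1) (hw₁ : ‖w₁‖ = 1) (h₁ : inner ℝ u₁ w₁ = 0)
    (hu₂ : ‖u₂‖ = 1) (hw₂ : ‖w₂‖ = 1) (h₂ : inner ℝ u₂ w₂ = 0) :
    {x : V3 × V3 | ∃ s t : ℝ, x = (circlePt F u₁ w₁ r s, ellipsePt F u₂ w₂ a e t) ∧
      IsStationary (circlePt F u₁ w₁ r) (ellipsePt F u₂ w₂ a e) s t}.encard ≤ 10 := by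
  obtain ⟨n, hn⟩ := exists_third hu₁ hw₁ h₁
  have hu₂' : inner ℝ u₂ u₂ = (1 : ℝ) := by rw [real_inner_self_eq_norm_sq, hu₂]; norm_num
  have hw₂' : inner ℝ w₂ w₂ = (1 : ℝ) := by rw [real_inner_self_eq_norm_sq, hw₂]; norm_num
  have hu₁' : inner ℝ u₁ u₁ = (1 : ℝ) := by rw [real_inner_self_eq_norm_sq, hu₁]; norm_num
  have hw₁' : inner ℝ w₁ w₁ = (1 : ℝ) := by rw [real_inner_self_eq_norm_sq, hw₁]; norm_num
  have h₂' : inner ℝ w₂ u₂ = (0 : ℝ) := by rw [real_inner_comm]; exact h₂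
  have h₁' : inner ℝ w₁ u₁ = (0 : ℝ) := by rw [real_inner_comm]; exact h₁
  have hb2 : 0 < 1 - e ^ 2 := by nlinarith
  have hb := Real.sqrt_pos.2 hb2
  have hbsq : √(1 - e ^ 2) ^ 2 = 1 - e ^ 2 := Real.sq_sqrt hb2.le
  let P : Par :=
    { e := e
      r := r
      l := a * (1 - e ^ 2)
      p1 := -inner ℝ u₁ u₂
      p2 := -inner ℝ w₁ u₂
      q1 := -inner ℝ u₁ w₂
      q2 := -inner ℝ w₁ w₂
      α := -inner ℝ n u₂
      β := -inner ℝ n w₂
      he0 := he0
      he1 := he1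
      hr := hr
      hl := by positivity
      hp := by
        have := hn u₂ u₂
        rw [real_inner_comm u₁ u₂, real_inner_comm w₁ u₂, real_inner_comm n u₂, hu₂'] at this
        linarith
      hq := by
        have := hn w₂ w₂
        rw [real_inner_comm u₁ w₂, real_inner_comm w₁ w₂, real_inner_comm n w₂, hw₂'] at this
        linarith
      hpq := by
        have := hn u₂ w₂
        rw [real_inner_comm u₁ u₂, real_inner_comm w₁ u₂, real_inner_comm n u₂, h₂] at this
        linarith }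
  have hsub : {x : V3 × V3 | ∃ s t : ℝ, x = (circlePt F u₁ w₁ r s, ellipsePt F u₂ w₂ a e t) ∧
      IsStationary (circlePt F u₁ w₁ r) (ellipsePt F u₂ w₂ a e) s t} ⊆
      (fun x : (ℝ × ℝ) × (ℝ × ℝ) => (F + (r * x.1.1) • u₁ + (r * x.1.2) • w₁,
        F - (a * (1 - e ^ 2) / (1 + e * x.2.1) * x.2.1) • u₂
          - (a * (1 - e ^ 2) / (1 + e * x.2.1) * x.2.2) • w₂)) '' P.S := by
    rintro x ⟨s, t, rfl, hst⟩
    obtain ⟨i1, i2⟩ := hst.inner_eq (hasDerivAt_circlePt F u₁ w₁ r s)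
      (hasDerivAt_ellipsePt F u₂ w₂ a e t)
    have hD : 0 < 1 + e * cos t := D_pos he0 he1 t
    set c : ℝ := -(e + cos t) / (1 + e * cos t) with hc
    set s' : ℝ := -(√(1 - e ^ 2) * sin t) / (1 + e * cos t) with hs'
    have hcs : c ^ 2 + s' ^ 2 = 1 := by
      rw [hc, hs']
      field_simp
      rw [hbsq]
      linear_combination (1 - e ^ 2) * sin_sq_add_cos_sq t
    have hρ : a * (1 - e ^ 2) / (1 + e * c) = a * (1 + e * cos t) := by
      have h1 : 1 + e * c = (1 - e ^ 2) / (1 + e * cos t) := by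
        rw [hc]; field_simp; ring
      rw [h1]; field_simp
    have hx1 : a * (1 - e ^ 2) / (1 + e * c) * c = -(a * (e + cos t)) := by
      rw [hρ, hc]; field_simp
    have hx2 : a * (1 - e ^ 2) / (1 + e * c) * s' = -(a * √(1 - e ^ 2) * sin t) := by
      rw [hρ, hs']; field_simp
    simp only [circlePt, ellipsePt] at i1 i2
    simp only [inner_add_left, inner_add_right, inner_sub_left, inner_smul_left, inner_smul_right,
      hu₁', hw₁', hu₂', hw₂', h₁, h₂, h₁', h₂', RCLike.conj_to_real] at i1 i2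
    rw [real_inner_comm u₁ u₂, real_inner_comm u₁ w₂, real_inner_comm w₁ u₂,
      real_inner_comm w₁ w₂] at i1
    have j1 : sin s * ((e + cos t) * inner ℝ u₁ u₂ + √(1 - e ^ 2) * sin t * inner ℝ u₁ w₂)
        = cos s * ((e + cos t) * inner ℝ w₁ u₂ + √(1 - e ^ 2) * sin t * inner ℝ w₁ w₂) := by
      have h5 : (r * a) * (sin s * ((e + cos t) * inner ℝ u₁ u₂ + √(1 - e ^ 2) * sin t * inner ℝ u₁ w₂))
        = (r * a) * (cos s * ((e + cos t) * inner ℝ w₁ u₂ + √(1 - e ^ 2) * sin t * inner ℝ w₁ w₂)) := by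
        linear_combination i1
      exact mul_left_cancel₀ (mul_pos hr ha).ne' h5
    have j2 : r * (cos s * (-sin t * inner ℝ u₁ u₂ + √(1 - e ^ 2) * cos t * inner ℝ u₁ w₂)
        + sin s * (-sin t * inner ℝ w₁ u₂ + √(1 - e ^ 2) * cos t * inner ℝ w₁ w₂))
        = -(a * e * sin t * (1 + e * cos t)) := by
      have h5 : a * (r * (cos s * (-sin t * inner ℝ u₁ u₂ + √(1 - e ^ 2) * cos t * inner ℝ u₁ w₂)
        + sin s * (-sin t * inner ℝ w₁ u₂ + √(1 - e ^ 2) * cos t * inner ℝ w₁ w₂)))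
        = a * (-(a * e * sin t * (1 + e * cos t))) := by
        linear_combination i2 + a ^ 2 * cos t * sin t * hbsq
      exact mul_left_cancel₀ ha.ne' h5
    have hc1 : e + c = -((1 - e ^ 2) * cos t) / (1 + e * cos t) := by
      rw [hc]; field_simp; ring
    have hc2 : 1 + e * c = (1 - e ^ 2) / (1 + e * cos t) := by
      rw [hc]; field_simp; ring
    refine ⟨((cos s, sin s), (c, s')), ⟨?_, hcs, ?_, ?_⟩, ?_⟩
    · simp only; linarith [sin_sq_add_cos_sq s]
    · simp only [P]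
      rw [hc, hs']
      field_simp
      linear_combination -j1
    · simp only [P]
      rw [hc1, hc2, hs']
      field_simp
      linear_combination (√(1 - e ^ 2)) * j2
        - (r * cos t * (cos s * inner ℝ u₁ w₂ + sin s * inner ℝ w₁ w₂)) * hbsq
    · simp only [hx1, hx2, circlePt, ellipsePt]
      simp only [neg_smul, sub_neg_eq_add]
  exact (encard_le_encard hsub).trans ((encard_image_le _ _).trans P.ten)

end Pool.Agent.TH798.CE
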