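import Pool.Agent.TH798.CE.Count2
import Pool.Agent.TH798.CE.CountC

set_option autoImplicit false

namespace Pool.Agent.TH798.CE

open Set Real

/-- The parameters of the reduced problem. `(p1, p2, α)` and `(q1, q2, β)` are the coordinates of the
two axes of the ellipse in an orthonormal basis of space whose first two vectors span the plane of
the circle. -/
structure Par where
  e : ℝ
  r : ℝ
  l : ℝ
  p1 : ℝ
  p2 : ℝ
  q1 : ℝ
  q2 : ℝ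
  α : ℝ
  β : ℝ
  he0 : 0 < e
  he1 : e < 1
  hr : 0 < r
  hl : 0 < l
  hp : p1 ^ 2 + p2 ^ 2 + α ^ 2 = 1
  hq : q1 ^ 2 + q2 ^ 2 + β ^ 2 = 1
  hpq : p1 * q1 + p2 * q2 + α * β = 0

/-- The reduced solution set. -/
def Par.S (P : Par) : Set ((ℝ × ℝ) × (ℝ × ℝ)) :=
  {x | x.1.1 ^ 2 + x.1.2 ^ 2 = 1 ∧ x.2.1 ^ 2 + x.2.2 ^ 2 = 1 ∧
    x.1.1 * (P.p2 * x.2.1 + P.q2 * x.2.2) = x.1.2 * (P.p1 * x.2.1 + P.q1 * x.2.2) ∧
    P.r * (1 + P.e * x.2.1) * (x.1.1 * (-x.2.2 * P.p1 + (P.e + x.2.1) * P.q1)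
      + x.1.2 * (-x.2.2 * P.p2 + (P.e + x.2.1) * P.q2)) = P.l * P.e * x.2.2}

/-- Reflection of the ellipse parameter. -/
def Par.flip (P : Par) : Par where
  e := P.e
  r := P.r
  l := P.l
  p1 := P.p1
  p2 := P.p2
  q1 := -P.q1
  q2 := -P.q2
  α := P.α
  β := -P.β
  he0 := P.he0
  he1 := P.he1
  hr := P.hr
  hl := P.hl
  hp := P.hp
  hq := by have := P.hq; linarith
  hpq := by have := P.hpq; linarith

/-- The part with `s > 0`. -/
def Par.Sp (P : Par) : Set ((ℝ × ℝ) × (ℝ × ℝ)) := {x | x ∈ P.S ∧ 0 < x.2.2}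

/-- The part with `s = 0`. -/
def Par.S0 (P : Par) : Set ((ℝ × ℝ) × (ℝ × ℝ)) := {x | x ∈ P.S ∧ x.2.2 = 0}

lemma Par.mem_flip (P : Par) {x : (ℝ × ℝ) × (ℝ × ℝ)} (hx : x ∈ P.S) :
    (x.1, (x.2.1, -x.2.2)) ∈ P.flip.S := by
  obtain ⟨h1, h2, h3, h4⟩ := hx
  refine ⟨?_, ?_, ?_, ?_⟩
  · simpa using h1
  · simpa using h2
  · simp only [Par.flip]; linarith
  · simp only [Par.flip]; linarith

lemma Par.encard_S_le (P : Par) : P.S.encard ≤ P.Sp.encard + P.flip.Sp.encard + P.S0.encard := by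
  have h : P.S ⊆ (P.Sp ∪ (fun x : (ℝ × ℝ) × (ℝ × ℝ) => (x.1, (x.2.1, -x.2.2))) ''
      P.flip.Sp) ∪ P.S0 := by
    intro x hx
    rcases lt_trichotomy x.2.2 0 with h | h | h
    · left; right
      refine ⟨_, ⟨P.mem_flip hx, by simpa using h⟩, ?_⟩
      simp
    · right; exact ⟨hx, h⟩
    · left; left; exact ⟨hx, h⟩
  refine (encard_le_encard h).trans ((encard_union_le _ _).trans ?_)
  gcongr
  exact (encard_union_le _ _).trans (add_le_add le_rfl (encard_image_le _ _))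

/-- basic facts on `x ∈ P.S`. -/
lemma Par.facts (P : Par) {x : (ℝ × ℝ) × (ℝ × ℝ)} (hx : x ∈ P.S) (χ : ℝ)
    (hχ : χ = x.1.1 * (P.p1 * x.2.1 + P.q1 * x.2.2) + x.1.2 * (P.p2 * x.2.1 + P.q2 * x.2.2)) :
    P.p1 * x.2.1 + P.q1 * x.2.2 = χ * x.1.1 ∧ P.p2 * x.2.1 + P.q2 * x.2.2 = χ * x.1.2 := by
  obtain ⟨⟨X, Y⟩, ⟨c, s⟩⟩ := x
  obtain ⟨h1, h2, h3, h4⟩ := hx
  simp only at h1 h2 h3 h4 hχ ⊢
  constructor
  · linear_combination (-(P.p1 * c + P.q1 * s)) * h1 - Y * h3 - X * hχ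
  · linear_combination (-(P.p2 * c + P.q2 * s)) * h1 + X * h3 - Y * hχ

/-- A line meets the unit circle at most twice. -/
lemma encard_line_circle {y1 y2 : ℝ} (hy : y1 ^ 2 + y2 ^ 2 = 1) (v : ℝ) :
    {z : ℝ × ℝ | z.1 ^ 2 + z.2 ^ 2 = 1 ∧ z.1 * y1 + z.2 * y2 = v}.encard ≤ 2 := by
  have h : {z : ℝ × ℝ | z.1 ^ 2 + z.2 ^ 2 = 1 ∧ z.1 * y1 + z.2 * y2 = v} ⊆
      {(v * y1 - √(1 - v ^ 2) * y2, v * y2 + √(1 - v ^ 2) * y1),
        (v * y1 + √(1 - v ^ 2) * y2, v * y2 - √(1 - v ^ 2) * y1)} := by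
    rintro ⟨X, Y⟩ ⟨h1, h2⟩
    simp only at h1 h2
    have h3 : (Y * y1 - X * y2) ^ 2 = 1 - v ^ 2 := by
      rw [← h2]; linear_combination (y1 ^ 2 + y2 ^ 2) * h1 + hy
    have h4 : X = v * y1 - (Y * y1 - X * y2) * y2 := by
      rw [← h2]; linear_combination (-X) * hy
    have h5 : Y = v * y2 + (Y * y1 - X * y2) * y1 := by
      rw [← h2]; linear_combination (-Y) * hy
    rcases sq_eq_sq_iff_eq_or_eq_neg.1 (h3.trans (Real.sq_sqrt (by rw [← h3]; positivity)).symm)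
      with h6 | h6
    · left
      rw [h6] at h4 h5
      exact Prod.ext h4 h5
    · right
      rw [h6] at h4 h5
      refine Prod.ext ?_ ?_
      · simp only; linarith
      · simp only; linarith
  refine (encard_le_encard h).trans ((encard_insert_le _ _).trans ?_)
  rw [encard_singleton]; norm_num

/-- Entries of the Gram matrix. -/
def Par.a (P : Par) : ℝ := P.p1 ^ 2 + P.p2 ^ 2
def Par.d (P : Par) : ℝ := P.q1 ^ 2 + P.q2 ^ 2
def Par.g (P : Par) : ℝ := -(P.p1 * P.q1 + P.p2 * P.q2)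
noncomputable def Par.μ (P : Par) : ℝ := (P.l * P.e / P.r) ^ 2

lemma Par.g_eq (P : Par) : P.g = P.α * P.β := by have := P.hpq; simp only [Par.g]; linarith
lemma Par.a_eq (P : Par) : P.a = 1 - P.α ^ 2 := by have := P.hp; simp only [Par.a]; linarith
lemma Par.d_eq (P : Par) : P.d = 1 - P.β ^ 2 := by have := P.hq; simp only [Par.d]; linarith
lemma Par.δ_eq (P : Par) : P.a * P.d - P.g ^ 2 = 1 - P.α ^ 2 - P.β ^ 2 := by
  rw [P.a_eq, P.d_eq, P.g_eq]; ring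

lemma Par.k_eq (P : Par) {c s χ X Y : ℝ} (hXY : X ^ 2 + Y ^ 2 = 1)
    (h1 : P.p1 * c + P.q1 * s = χ * X) (h2 : P.p2 * c + P.q2 * s = χ * Y) :
    P.a * c ^ 2 - 2 * P.g * s * c + P.d * s ^ 2 = χ ^ 2 := by
  have : P.a * c ^ 2 - 2 * P.g * s * c + P.d * s ^ 2
      = (P.p1 * c + P.q1 * s) ^ 2 + (P.p2 * c + P.q2 * s) ^ 2 := by
    simp only [Par.a, Par.g, Par.d]; ring
  rw [this, h1, h2]; linear_combination χ ^ 2 * hXY

lemma Par.B_eq (P : Par) {c s χ X Y : ℝ} (hcs : s ^ 2 + c ^ 2 = 1)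
    (h1 : P.p1 * c + P.q1 * s = χ * X) (h2 : P.p2 * c + P.q2 * s = χ * Y) :
    P.e * s * (P.a * c ^ 2 - 2 * P.g * s * c + P.d * s ^ 2)
      + (1 + P.e * c) * ((P.d - P.a) * s * c - P.g * (c ^ 2 - s ^ 2))
      = χ * (X * (-s * P.p1 + (P.e + c) * P.q1) + Y * (-s * P.p2 + (P.e + c) * P.q2)) := by
  have : P.e * s * (P.a * c ^ 2 - 2 * P.g * s * c + P.d * s ^ 2)
      + (1 + P.e * c) * ((P.d - P.a) * s * c - P.g * (c ^ 2 - s ^ 2))
      = (P.p1 * c + P.q1 * s) * (-s * P.p1 + (P.e + c) * P.q1)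
        + (P.p2 * c + P.q2 * s) * (-s * P.p2 + (P.e + c) * P.q2) := by
    simp only [Par.a, Par.g, Par.d]
    linear_combination (c*P.e*P.p1*P.q1 +c*P.e*P.p2*P.q2 +P.e*P.q1^2*s +P.e*P.q2^2*s) * hcs
  rw [this, h1, h2]; ring

lemma angle_exists {c s : ℝ} (h : c ^ 2 + s ^ 2 = 1) (hs : 0 < s) :
    ∃ f ∈ Ioo 0 π, cos f = c ∧ sin f = s := by
  have hc : c ^ 2 < 1 := by nlinarith
  have h1 : -1 < c := by nlinarith
  have h2 : c < 1 := by nlinarith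
  refine ⟨arccos c, ⟨arccos_pos.2 h2, ?_⟩, cos_arccos h1.le h2.le, ?_⟩
  · refine lt_of_le_of_ne (arccos_le_pi c) ?_
    rw [Ne, arccos_eq_pi]; linarith
  · rw [sin_arccos, show 1 - c ^ 2 = s ^ 2 by linarith, Real.sqrt_sq hs.le]

/-- For `δ > 0` solutions with `s > 0` inject into the solutions of the scalar equation. -/
lemma Par.Sp_le (P : Par) (ha : 0 < P.a) (hδ : 0 < P.a * P.d - P.g ^ 2) :
    P.Sp.encard ≤ {f | f ∈ Ioo 0 π ∧ ((1 + P.e * cos f) * Bf P.e P.a P.d P.g f) ^ 2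
      = P.μ * (sin f ^ 2 * kf P.a P.d P.g f)}.encard := by
  set χ : ℝ → ℝ := fun f => P.r * (1 + P.e * cos f) * Bf P.e P.a P.d P.g f / (P.l * P.e * sin f)
    with hχdef
  have hsub : P.Sp ⊆ (fun f => (((P.p1 * cos f + P.q1 * sin f) / χ f,
      (P.p2 * cos f + P.q2 * sin f) / χ f), (cos f, sin f))) ''
      {f | f ∈ Ioo 0 π ∧ ((1 + P.e * cos f) * Bf P.e P.a P.d P.g f) ^ 2
      = P.μ * (sin f ^ 2 * kf P.a P.d P.g f)} := by
    rintro ⟨⟨X, Y⟩, ⟨c, s⟩⟩ ⟨hx, hs⟩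
    obtain ⟨hf1, hf2⟩ := P.facts hx _ rfl
    obtain ⟨h1, h2, h3, h4⟩ := hx
    simp only at h1 h2 h3 h4 hs hf1 hf2
    obtain ⟨f, hf, rfl, rfl⟩ := angle_exists h2 hs
    generalize hχ0 : X * (P.p1 * cos f + P.q1 * sin f) + Y * (P.p2 * cos f + P.q2 * sin f) = χ0
      at hf1 hf2
    have hr := P.hr
    have hl := P.hl
    have he := P.he0
    have hk : kf P.a P.d P.g f = χ0 ^ 2 := P.k_eq h1 hf1 hf2
    have hkpos := kf_pos ha hδ f
    have hB : Bf P.e P.a P.d P.g f = _ := P.B_eq (by linarith) hf1 hf2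
    have hχ0' : χ0 ≠ 0 := by
      rintro rfl
      rw [hk] at hkpos; simp at hkpos
    have hmain : P.r * (1 + P.e * cos f) * Bf P.e P.a P.d P.g f = χ0 * (P.l * P.e * sin f) := by
      rw [hB, ← h4]; ring
    have hχ : χ f = χ0 := by
      simp only [hχdef]
      rw [hmain]
      field_simp
    refine ⟨f, ⟨hf, ?_⟩, ?_⟩
    · rw [hk, Par.μ]
      have h5 : (1 + P.e * cos f) * Bf P.e P.a P.d P.g f = χ0 * (P.l * P.e * sin f) / P.r := by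
        rw [eq_div_iff hr.ne', ← hmain]; ring
      rw [h5]; field_simp
    · simp only [hχ, hf1, hf2]
      rw [mul_div_cancel_left₀ _ hχ0', mul_div_cancel_left₀ _ hχ0']
  exact (encard_le_encard hsub).trans (encard_image_le _ _)

end Pool.Agent.TH798.CE
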