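import Mathlib

set_option autoImplicit false

namespace Pool.Agent.TH798.CE

open Set

/-- If every finite subset has at most `n` elements then the extended cardinality is at most `n`. -/
lemma encard_le_of_finset {α : Type*} {Z : Set α} {n : ℕ}
    (h : ∀ s : Finset α, (↑s : Set α) ⊆ Z → s.card ≤ n) : Z.encard ≤ n := by
  by_contra hc
  rw [not_le] at hc
  have h1 : ((n + 1 : ℕ) : ℕ∞) ≤ Z.encard := by
    have := Order.add_one_le_of_lt hc
    simpa using this
  obtain ⟨t, htZ, ht⟩ := Set.exists_subset_encard_eq h1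
  have hfin : t.Finite := Set.finite_of_encard_eq_coe ht
  have h2 := h hfin.toFinset (by simpa using htZ)
  have h3 : (hfin.toFinset.card : ℕ∞) = ((n + 1 : ℕ) : ℕ∞) := by
    rw [← ht, hfin.encard_eq_coe_toFinset_card]
  have h4 : hfin.toFinset.card = n + 1 := by exact_mod_cast h3
  omega

/-- Rolle: on an open interval, the number of zeros is at most one more than the number of zeros
of the derivative. -/
lemma rolle_encard {a b : ℝ} {F F' : ℝ → ℝ} (hF : ∀ x ∈ Ioo a b, HasDerivAt F (F' x) x) {n : ℕ}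
    (hn : {x | x ∈ Ioo a b ∧ F' x = 0}.encard ≤ n) :
    {x | x ∈ Ioo a b ∧ F x = 0}.encard ≤ ((n + 1 : ℕ) : ℕ∞) := by
  have hfin : {x | x ∈ Ioo a b ∧ F' x = 0}.Finite :=
    Set.finite_of_encard_le_coe hn
  have hcard : hfin.toFinset.card ≤ n := by
    rw [hfin.encard_eq_coe_toFinset_card] at hn
    exact_mod_cast hn
  refine encard_le_of_finset fun s hs => ?_
  refine (Finset.card_le_of_interleaved (t := hfin.toFinset) ?_).trans (Nat.succ_le_succ hcard)
  intro x hx y hy hxy _
  have hx' := hs (Finset.mem_coe.2 hx)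
  have hy' := hs (Finset.mem_coe.2 hy)
  have hsub : Icc x y ⊆ Ioo a b := fun z hz => ⟨hx'.1.1.trans_le hz.1, hz.2.trans_lt hy'.1.2⟩
  obtain ⟨z, hz, hz'⟩ := exists_hasDerivAt_eq_zero hxy
    (fun z hz => (hF z (hsub hz)).continuousAt.continuousWithinAt)
    (by rw [hx'.2, hy'.2] : F x = F y) (fun z hz => hF z (hsub (Ioo_subset_Icc_self hz)))
  exact ⟨z, by simpa using ⟨hsub (Ioo_subset_Icc_self hz), hz'⟩, hz.1, hz.2⟩

/-- A differentiable function on an open interval whose derivative is positive at each zero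
has at most one zero. -/
lemma encard_le_one_of_deriv_pos {a b : ℝ} {F F' : ℝ → ℝ}
    (hF : ∀ x ∈ Ioo a b, HasDerivAt F (F' x) x)
    (hpos : ∀ x ∈ Ioo a b, F x = 0 → 0 < F' x) :
    {x | x ∈ Ioo a b ∧ F x = 0}.encard ≤ 1 := by
  rw [Set.encard_le_one_iff]
  have key : ∀ x y, x ∈ Ioo a b → y ∈ Ioo a b → F x = 0 → F y = 0 → ¬ x < y := by
    intro x y hx hy hFx hFy hxy
    have hsub : Icc x y ⊆ Ioo a b := fun z hz => ⟨hx.1.trans_le hz.1, hz.2.trans_lt hy.2⟩
    have hcont : ContinuousOn F (Icc x y) :=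
      fun z hz => (hF z (hsub hz)).continuousAt.continuousWithinAt
    have hslope : ∀ w ∈ Ioo a b, F w = 0 → ∀ᶠ z in nhdsWithin w {w}ᶜ, 0 < (z - w)⁻¹ * F z := by
      intro w hw hFw
      have h := (hasDerivAt_iff_tendsto_slope.1 (hF w hw)).eventually
        (lt_mem_nhds (hpos w hw hFw))
      filter_upwards [h] with z hz
      simpa [slope_def_field, hFw, div_eq_inv_mul] using hz
    have h1 : ∀ᶠ z in nhdsWithin x (Ioi x), 0 < F z := by
      have h := (hslope x hx hFx).filter_mono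
        (nhdsWithin_mono x (fun z hz => ne_of_gt hz : Ioi x ⊆ {x}ᶜ))
      filter_upwards [h, self_mem_nhdsWithin] with z hz hxz
      have : 0 < z - x := sub_pos.2 hxz
      exact (pos_iff_pos_of_mul_pos hz).1 (inv_pos.2 this)
    obtain ⟨u, hu, hxu⟩ := (mem_nhdsGT_iff_exists_Ioo_subset).1 h1
    set v := min ((x + u) / 2) y with hv
    have hxv : x < v := lt_min (by have := (Set.mem_Ioi.1 hu); linarith) hxy
    have hcomp : IsCompact (Icc v y ∩ {z | F z ≤ 0}) := by
      have hc : ContinuousOn F (Icc v y) := hcont.mono (Icc_subset_Icc_left hxv.le)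
      have := hc.preimage_isClosed_of_isClosed isClosed_Icc (isClosed_Iic (a := (0 : ℝ)))
      exact isCompact_Icc.of_isClosed_subset this inter_subset_left
    obtain ⟨m, hm, hmin⟩ := hcomp.exists_isLeast
      ⟨y, ⟨⟨min_le_right _ _, le_rfl⟩, hFy.le⟩⟩
    have hxm : x < m := hxv.trans_le hm.1.1
    have hpos' : ∀ z ∈ Ioo x m, 0 < F z := by
      intro z hz
      by_contra hn
      rcases lt_or_ge z v with h | h
      · refine hn (hxu ⟨hz.1, ?_⟩)
        have := (Set.mem_Ioi.1 hu)
        have h2 : v ≤ (x + u) / 2 := min_le_left _ _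
        linarith
      · exact absurd (hmin ⟨⟨h, (hz.2.le.trans hm.1.2)⟩, not_lt.1 hn⟩) (not_le.2 hz.2)
    have hmI : m ∈ Ioo a b := hsub ⟨hxm.le, hm.1.2⟩
    have hFm : F m = 0 := by
      refine le_antisymm hm.2 ?_
      have hc : ContinuousWithinAt F (Iio m) m := (hF m hmI).continuousAt.continuousWithinAt
      refine ge_of_tendsto hc ?_
      filter_upwards [Ioo_mem_nhdsLT hxm] with z hz using (hpos' z hz).le
    have h2 := (hslope m hmI hFm).filter_mono
      (nhdsWithin_mono m (fun z hz => ne_of_lt hz : Iio m ⊆ {m}ᶜ))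
    have h3 : ∀ᶠ z in nhdsWithin m (Iio m), False := by
      filter_upwards [h2, Ioo_mem_nhdsLT hxm] with z hz hz'
      have h4 : 0 < (z - m)⁻¹ := (pos_iff_pos_of_mul_pos hz).2 (hpos' z hz')
      have h5 : (z - m)⁻¹ < 0 := inv_lt_zero.2 (sub_neg.2 hz'.2)
      linarith
    exact h3.exists.elim fun _ h => h
  intro x y hx hy
  rcases lt_trichotomy x y with h | h | h
  · exact absurd h (key x y hx.1 hy.1 hx.2 hy.2)
  · exact h
  · exact absurd h (key y x hy.1 hx.1 hy.2 hx.2)

end Pool.Agent.TH798.CE
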