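import Pool.Agent.TH798.CE.Real

set_option autoImplicit false

namespace Pool.Agent.TH798.CE

open Set Real

lemma Par.flip_a (P : Par) : P.flip.a = P.a := rfl
lemma Par.flip_d (P : Par) : P.flip.d = P.d := by simp [Par.d, Par.flip]
lemma Par.flip_g (P : Par) : P.flip.g = -P.g := by simp [Par.g, Par.flip]; ring
lemma Par.flip_e (P : Par) : P.flip.e = P.e := rfl
lemma Par.flip_μ (P : Par) : P.flip.μ = P.μ := rfl

lemma Par.a_pos (P : Par) (hδ : 0 < P.a * P.d - P.g ^ 2) : 0 < P.a := by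
  rw [P.δ_eq] at hδ; rw [P.a_eq]; nlinarith [sq_nonneg P.β]

lemma Par.d_pos (P : Par) (hδ : 0 < P.a * P.d - P.g ^ 2) : 0 < P.d := by
  rw [P.δ_eq] at hδ; rw [P.d_eq]; nlinarith [sq_nonneg P.α]

lemma Par.flip_Sp_le (P : Par) (ha : 0 < P.a) (hδ : 0 < P.a * P.d - P.g ^ 2) :
    P.flip.Sp.encard ≤ {f | f ∈ Ioo 0 π ∧ ((1 + P.e * cos f) * Bf P.e P.a P.d (-P.g) f) ^ 2
      = P.μ * (sin f ^ 2 * kf P.a P.d (-P.g) f)}.encard := by
  have h := P.flip.Sp_le (by rw [P.flip_a]; exact ha)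
    (by rw [P.flip_a, P.flip_d, P.flip_g]; simpa using hδ)
  rwa [P.flip_a, P.flip_d, P.flip_g, P.flip_e, P.flip_μ] at h

lemma Par.one_add_pos (P : Par) {c : ℝ} (hc : c ^ 2 ≤ 1) : 0 < 1 + P.e * c := by
  have h0 := P.he0; have h1 := P.he1
  have : -1 ≤ c := by nlinarith
  nlinarith

lemma sq_one_cases {c : ℝ} (h : c ^ 2 = 1) : c = 1 ∨ c = -1 := by
  have : (c - 1) * (c + 1) = 0 := by linarith
  rcases mul_eq_zero.1 this with h | h
  · left; linarith
  · right; linarith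

lemma Par.z_ne (P : Par) {c : ℝ} (hc : c ^ 2 = 1) : P.e + c ≠ 0 := by
  have h0 := P.he0; have h1 := P.he1
  rcases sq_one_cases hc with rfl | rfl
  · linarith
  · intro h; linarith

/-- Case A: `α β ≠ 0`, `δ > 0`. -/
lemma Par.caseA (P : Par) (hδ : 0 < P.a * P.d - P.g ^ 2) (hg : P.g ≠ 0) : P.S.encard ≤ 10 := by
  have ha := P.a_pos hδ
  have hA := encard_caseA (μ := P.μ) P.he0 P.he1 ha hδ hg
  have h0 : P.S0.encard ≤ 0 := by
    refine le_of_eq ?_
    rw [encard_eq_zero, eq_empty_iff_forall_notMem]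
    rintro ⟨⟨X, Y⟩, ⟨c, s⟩⟩ ⟨hx, hs⟩
    obtain ⟨hf1, hf2⟩ := P.facts hx _ rfl
    obtain ⟨h1, h2, h3, h4⟩ := hx
    simp only at h1 h2 h3 h4 hs hf1 hf2
    subst hs
    generalize hχ0 : X * (P.p1 * c + P.q1 * 0) + Y * (P.p2 * c + P.q2 * 0) = χ0 at hf1 hf2
    have hc : c ^ 2 = 1 := by linarith
    have hD := P.one_add_pos hc.le
    have hz := P.z_ne hc
    have h5 : X * P.q1 + Y * P.q2 = 0 := by
      have h6 : P.r * (1 + P.e * c) * (P.e + c) * (X * P.q1 + Y * P.q2) = 0 := by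
        linear_combination h4
      rcases mul_eq_zero.1 h6 with h7 | h7
      · exact absurd h7 (mul_ne_zero (mul_ne_zero P.hr.ne' hD.ne') hz)
      · exact h7
    apply hg
    have h8 : c * (P.p1 * P.q1 + P.p2 * P.q2) = 0 := by
      have : c * (P.p1 * P.q1 + P.p2 * P.q2) = χ0 * (X * P.q1 + Y * P.q2) := by
        linear_combination P.q1 * hf1 + P.q2 * hf2
      rw [this, h5, mul_zero]
    have hc0 : c ≠ 0 := by rintro rfl; norm_num at hc
    have := (mul_eq_zero.1 h8).resolve_left hc0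
    simp only [Par.g, this, neg_zero]
  refine P.encard_S_le.trans ((add_le_add (add_le_add (P.Sp_le ha hδ) (P.flip_Sp_le ha hδ)) h0).trans ?_)
  simpa using hA

lemma encard_four_le {α : Type*} (a b c d : α) : ({a, b, c, d} : Set α).encard ≤ 4 := by
  refine (encard_insert_le _ _).trans ?_
  refine (add_le_add_left ((encard_insert_le _ _).trans (add_le_add_left
    ((encard_insert_le _ _).trans (add_le_add_left (encard_singleton _).le _)) _)) _).trans ?_
  norm_num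

/-- Case B: `α β = 0`, `δ > 0`. -/
lemma Par.caseB (P : Par) (hδ : 0 < P.a * P.d - P.g ^ 2) (hg : P.g = 0) : P.S.encard ≤ 10 := by
  have ha := P.a_pos hδ
  have hd := P.d_pos hδ
  have h1 := P.Sp_le ha hδ
  have h2 := P.flip_Sp_le ha hδ
  rw [hg] at h1 h2
  rw [neg_zero] at h2
  have hB := encard_caseB (μ := P.μ) P.he0 P.he1 ha hd
  have h0 : P.S0.encard ≤ 4 := by
    have hsub : P.S0 ⊆ {((P.p1 / √P.a, P.p2 / √P.a), ((1 : ℝ), (0 : ℝ))),
        ((-(P.p1 / √P.a), -(P.p2 / √P.a)), ((1 : ℝ), (0 : ℝ))),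
        ((P.p1 / √P.a, P.p2 / √P.a), ((-1 : ℝ), (0 : ℝ))),
        ((-(P.p1 / √P.a), -(P.p2 / √P.a)), ((-1 : ℝ), (0 : ℝ)))} := by
      rintro ⟨⟨X, Y⟩, ⟨c, s⟩⟩ ⟨hx, hs⟩
      obtain ⟨hf1, hf2⟩ := P.facts hx _ rfl
      obtain ⟨h1, h2, h3, h4⟩ := hx
      simp only at h1 h2 h3 h4 hs hf1 hf2
      subst hs
      generalize hχ0 : X * (P.p1 * c + P.q1 * 0) + Y * (P.p2 * c + P.q2 * 0) = χ0 at hf1 hf2
      have hc : c ^ 2 = 1 := by linarith
      have hk := P.k_eq h1 hf1 hf2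
      have hk' : χ0 ^ 2 = (√P.a) ^ 2 := by
        rw [Real.sq_sqrt ha.le, ← hk]; linear_combination P.a * hc
      have hsa : √P.a ≠ 0 := (Real.sqrt_pos.2 ha).ne'
      simp only [mul_zero, add_zero] at hf1 hf2
      simp only [mem_insert_iff, mem_singleton_iff, Prod.mk.injEq]
      rcases sq_eq_sq_iff_eq_or_eq_neg.1 hk' with h5 | h5 <;>
      rcases sq_one_cases hc with rfl | rfl
      · left; subst h5
        refine ⟨⟨?_, ?_⟩, rfl, trivial⟩
        · rw [eq_div_iff hsa]; linarith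
        · rw [eq_div_iff hsa]; linarith
      · right; right; right; subst h5
        refine ⟨⟨?_, ?_⟩, rfl, trivial⟩
        · rw [← neg_div, eq_div_iff hsa]; linarith
        · rw [← neg_div, eq_div_iff hsa]; linarith
      · right; left; subst h5
        refine ⟨⟨?_, ?_⟩, rfl, trivial⟩
        · rw [← neg_div, eq_div_iff hsa]; linarith
        · rw [← neg_div, eq_div_iff hsa]; linarith
      · right; right; left; subst h5
        refine ⟨⟨?_, ?_⟩, rfl, trivial⟩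
        · rw [eq_div_iff hsa]; linarith
        · rw [eq_div_iff hsa]; linarith
    exact (encard_le_encard hsub).trans (encard_four_le _ _ _ _)
  refine P.encard_S_le.trans ((add_le_add (add_le_add (h1.trans hB) (h2.trans hB)) h0).trans ?_)
  norm_num

end Pool.Agent.TH798.CE
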