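import Pool.Agent.TH798.CE.Ten

set_option autoImplicit false

namespace Pool.Agent.TH798.CE

open Set Real

/-- In the degenerate case the two axes project to multiples of one unit vector. -/
lemma Par.rank_one (P : Par) (h : P.α ^ 2 + P.β ^ 2 = 1) :
    ∃ y1 y2 : ℝ, y1 ^ 2 + y2 ^ 2 = 1 ∧ P.p1 = P.β * y1 ∧ P.p2 = P.β * y2 ∧
      P.q1 = -(P.α * y1) ∧ P.q2 = -(P.α * y2) := by
  have hp := P.hp; have hq := P.hq; have hpq := P.hpq
  have hz : (P.α * P.p1 + P.β * P.q1) ^ 2 + (P.α * P.p2 + P.β * P.q2) ^ 2 = 0 := by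
    linear_combination P.α ^ 2 * hp + P.β ^ 2 * hq + 2 * P.α * P.β * hpq
      - (P.α ^ 2 + P.β ^ 2) * h
  have h1 : P.α * P.p1 + P.β * P.q1 = 0 := by
    nlinarith [sq_nonneg (P.α * P.p1 + P.β * P.q1), sq_nonneg (P.α * P.p2 + P.β * P.q2)]
  have h2 : P.α * P.p2 + P.β * P.q2 = 0 := by
    nlinarith [sq_nonneg (P.α * P.p1 + P.β * P.q1), sq_nonneg (P.α * P.p2 + P.β * P.q2)]
  refine ⟨P.β * P.p1 - P.α * P.q1, P.β * P.p2 - P.α * P.q2, ?_, ?_, ?_, ?_, ?_⟩
  · linear_combination P.β ^ 2 * hp + P.α ^ 2 * hq - 2 * P.α * P.β * hpq + h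
  · linear_combination (-P.p1) * h + P.α * h1
  · linear_combination (-P.p2) * h + P.α * h2
  · linear_combination (-P.q1) * h + P.β * h1
  · linear_combination (-P.q2) * h + P.β * h2

/-- solutions with `ϖ ≠ 0` and `s > 0`. -/
def Par.Cp (P : Par) : Set ((ℝ × ℝ) × (ℝ × ℝ)) :=
  {x | x ∈ P.S ∧ P.β * x.2.1 - P.α * x.2.2 ≠ 0 ∧ 0 < x.2.2}

def Par.C0 (P : Par) : Set ((ℝ × ℝ) × (ℝ × ℝ)) :=
  {x | x ∈ P.S ∧ P.β * x.2.1 - P.α * x.2.2 ≠ 0 ∧ x.2.2 = 0}

def Par.C1 (P : Par) : Set ((ℝ × ℝ) × (ℝ × ℝ)) :=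
  {x | x ∈ P.S ∧ P.β * x.2.1 - P.α * x.2.2 = 0}

lemma Par.encard_S_le_C (P : Par) :
    P.S.encard ≤ P.Cp.encard + P.flip.Cp.encard + P.C0.encard + P.C1.encard := by
  have h : P.S ⊆ ((P.Cp ∪ (fun x : (ℝ × ℝ) × (ℝ × ℝ) => (x.1, (x.2.1, -x.2.2))) ''
      P.flip.Cp) ∪ P.C0) ∪ P.C1 := by
    intro x hx
    by_cases h0 : P.β * x.2.1 - P.α * x.2.2 = 0
    · right; exact ⟨hx, h0⟩
    left
    rcases lt_trichotomy x.2.2 0 with h | h | h
    · left; right
      refine ⟨_, ⟨P.mem_flip hx, ?_, by simpa using h⟩, ?_⟩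
      · simp only [Par.flip]
        intro h1; apply h0; linarith
      · simp
    · right; exact ⟨hx, h0, h⟩
    · left; left; exact ⟨hx, h0, h⟩
  refine (encard_le_encard h).trans ((encard_union_le _ _).trans ?_)
  gcongr
  refine (encard_union_le _ _).trans ?_
  gcongr
  exact (encard_union_le _ _).trans (add_le_add le_rfl (encard_image_le _ _))

lemma Par.Cp_le (P : Par) (h : P.α ^ 2 + P.β ^ 2 = 1) :
    P.Cp.encard ≤ {f | f ∈ Ioo 0 π ∧ Wcf P.e P.α P.β f ^ 2 = P.μ * sin f ^ 2}.encard := by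
  obtain ⟨y1, y2, hy, hp1, hp2, hq1, hq2⟩ := P.rank_one h
  set ε : ℝ → ℝ := fun f => -(P.l * P.e * sin f) / (P.r * Wcf P.e P.α P.β f) with hεdef
  have hsub : P.Cp ⊆ (fun f => ((ε f * y1, ε f * y2), (cos f, sin f))) ''
      {f | f ∈ Ioo 0 π ∧ Wcf P.e P.α P.β f ^ 2 = P.μ * sin f ^ 2} := by
    rintro ⟨⟨X, Y⟩, ⟨c, s⟩⟩ ⟨hx, hϖ, hs⟩
    obtain ⟨h1, h2, h3, h4⟩ := hx
    simp only at h1 h2 h3 h4 hs hϖ
    obtain ⟨f, hf, rfl, rfl⟩ := angle_exists h2 hs
    rw [hp1, hp2, hq1, hq2] at h3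
    rw [hp1, hp2, hq1, hq2] at h4
    have hr := P.hr
    have hl := P.hl
    have he := P.he0
    have h5 : X * y2 - Y * y1 = 0 := by
      have : (P.β * cos f - P.α * sin f) * (X * y2 - Y * y1) = 0 := by linear_combination h3
      exact (mul_eq_zero.1 this).resolve_left hϖ
    set η := X * y1 + Y * y2 with hη
    have hη2 : η ^ 2 = 1 := by
      rw [hη]; linear_combination (y1 ^ 2 + y2 ^ 2) * h1 + hy - (X * y2 - Y * y1) * h5
    have hX : X = η * y1 := by rw [hη]; linear_combination (-X) * hy + y2 * h5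
    have hY : Y = η * y2 := by rw [hη]; linear_combination (-Y) * hy - y1 * h5
    have h6 : P.r * Wcf P.e P.α P.β f * η = -(P.l * P.e * sin f) := by
      simp only [Wcf, hη]; linear_combination -h4
    have hW : P.r * Wcf P.e P.α P.β f ≠ 0 := by
      intro h0; rw [h0, zero_mul] at h6
      have : 0 < P.l * P.e * sin f := by positivity
      linarith
    have hε : ε f = η := by
      simp only [hεdef]; rw [div_eq_iff hW]; linarith
    refine ⟨f, ⟨hf, ?_⟩, ?_⟩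
    · have h7 : (P.r * Wcf P.e P.α P.β f) ^ 2 = (P.l * P.e * sin f) ^ 2 := by
        calc (P.r * Wcf P.e P.α P.β f) ^ 2 = (P.r * Wcf P.e P.α P.β f) ^ 2 * η ^ 2 := by
              rw [hη2, mul_one]
          _ = (P.r * Wcf P.e P.α P.β f * η) ^ 2 := by ring
          _ = (P.l * P.e * sin f) ^ 2 := by rw [h6]; ring
      rw [Par.μ]
      field_simp
      linarith
    · simp only [hε, ← hX, ← hY]
  exact (encard_le_encard hsub).trans (encard_image_le _ _)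

lemma Par.C1_le (P : Par) (h : P.α ^ 2 + P.β ^ 2 = 1) : P.C1.encard ≤ 4 := by
  obtain ⟨y1, y2, hy, hp1, hp2, hq1, hq2⟩ := P.rank_one h
  have he0 := P.he0
  have he1 := P.he1
  have hr := P.hr
  have hα : P.α ^ 2 ≤ 1 := by nlinarith [sq_nonneg P.β]
  have hD1 := P.one_add_pos hα
  have hD2 := P.one_add_pos (c := -P.α) (by simpa using hα)
  set v1 := -(P.l * P.e * P.β) / (P.r * (1 + P.e * P.α) ^ 2) with hv1
  set v2 := -(P.l * P.e * P.β) / (P.r * (1 + P.e * (-P.α)) ^ 2) with hv2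
  have hsub : P.C1 ⊆ ((fun z : ℝ × ℝ => (z, (P.α, P.β))) ''
      {z : ℝ × ℝ | z.1 ^ 2 + z.2 ^ 2 = 1 ∧ z.1 * y1 + z.2 * y2 = v1}) ∪
      ((fun z : ℝ × ℝ => (z, (-P.α, -P.β))) ''
      {z : ℝ × ℝ | z.1 ^ 2 + z.2 ^ 2 = 1 ∧ z.1 * y1 + z.2 * y2 = v2}) := by
    rintro ⟨⟨X, Y⟩, ⟨c, s⟩⟩ ⟨hx, hϖ⟩
    obtain ⟨h1, h2, h3, h4⟩ := hx
    simp only at h1 h2 h3 h4 hϖ
    rw [hp1, hp2, hq1, hq2] at h4
    have h5 : (P.α * c + P.β * s) ^ 2 = 1 := by
      linear_combination (P.α ^ 2 + P.β ^ 2) * h2 + h - (P.β * c - P.α * s) * hϖ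
    have hc : c = (P.α * c + P.β * s) * P.α := by linear_combination (-c) * h + P.β * hϖ
    have hs : s = (P.α * c + P.β * s) * P.β := by linear_combination (-s) * h - P.α * hϖ
    rcases sq_one_cases h5 with h6 | h6
    · left
      rw [h6, one_mul] at hc hs
      subst hc; subst hs
      refine ⟨(X, Y), ⟨h1, ?_⟩, rfl⟩
      simp only
      rw [hv1, eq_div_iff (by positivity)]
      linear_combination (-1) * h4 - (P.r * (1 + P.e * P.α) * (X * y1 + Y * y2)) * h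
    · right
      rw [h6, neg_one_mul] at hc hs
      subst hc; subst hs
      refine ⟨(X, Y), ⟨h1, ?_⟩, rfl⟩
      simp only
      rw [hv2, eq_div_iff (by positivity)]
      linear_combination h4 - (P.r * (1 + P.e * -P.α) * (X * y1 + Y * y2)) * h
  refine (encard_le_encard hsub).trans ((encard_union_le _ _).trans ?_)
  refine (add_le_add ((encard_image_le _ _).trans (encard_line_circle hy v1))
    ((encard_image_le _ _).trans (encard_line_circle hy v2))).trans ?_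
  norm_num

lemma Par.flip_h (P : Par) (h : P.α ^ 2 + P.β ^ 2 = 1) : P.flip.α ^ 2 + P.flip.β ^ 2 = 1 := by
  simpa [Par.flip] using h

lemma Par.flip_Cp_le (P : Par) (h : P.α ^ 2 + P.β ^ 2 = 1) :
    P.flip.Cp.encard ≤ {f | f ∈ Ioo 0 π ∧ Wcf P.e P.α (-P.β) f ^ 2 = P.μ * sin f ^ 2}.encard :=
  P.flip.Cp_le (P.flip_h h)

lemma Par.C0_le (P : Par) (h : P.α ^ 2 + P.β ^ 2 = 1) :
    P.C0.encard ≤ 4 ∧ (P.α ≠ 0 → P.C0.encard ≤ 0) := by
  obtain ⟨y1, y2, hy, hp1, hp2, hq1, hq2⟩ := P.rank_one h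
  have key : ∀ x ∈ P.C0, x.2.2 = 0 ∧ x.2.1 ^ 2 = 1 ∧ P.α = 0 ∧
      ∃ η : ℝ, η ^ 2 = 1 ∧ x.1.1 = η * y1 ∧ x.1.2 = η * y2 := by
    rintro ⟨⟨X, Y⟩, ⟨c, s⟩⟩ ⟨hx, hϖ, hs⟩
    obtain ⟨h1, h2, h3, h4⟩ := hx
    simp only at h1 h2 h3 h4 hs hϖ ⊢
    subst hs
    have hc : c ^ 2 = 1 := by linarith
    rw [hp1, hp2, hq1, hq2] at h3
    rw [hp1, hp2, hq1, hq2] at h4
    have h5 : X * y2 - Y * y1 = 0 := by
      have : (P.β * c - P.α * 0) * (X * y2 - Y * y1) = 0 := by linear_combination h3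
      exact (mul_eq_zero.1 this).resolve_left hϖ
    have hη2 : (X * y1 + Y * y2) ^ 2 = 1 := by
      linear_combination (y1 ^ 2 + y2 ^ 2) * h1 + hy - (X * y2 - Y * y1) * h5
    have hη0 : X * y1 + Y * y2 ≠ 0 := by
      intro h0; rw [h0] at hη2; norm_num at hη2
    refine ⟨rfl, hc, ?_, X * y1 + Y * y2, hη2, ?_, ?_⟩
    · have h6 : P.r * (1 + P.e * c) * (P.e + c) * (X * y1 + Y * y2) * P.α = 0 := by
        linear_combination (-1) * h4
      refine (mul_eq_zero.1 h6).resolve_left ?_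
      exact mul_ne_zero (mul_ne_zero (mul_ne_zero P.hr.ne' (P.one_add_pos hc.le).ne')
        (P.z_ne hc)) hη0
    · linear_combination (-X) * hy + y2 * h5
    · linear_combination (-Y) * hy - y1 * h5
  constructor
  · have hsub : P.C0 ⊆ {((y1, y2), ((1 : ℝ), (0 : ℝ))), ((-y1, -y2), ((1 : ℝ), (0 : ℝ))),
        ((y1, y2), ((-1 : ℝ), (0 : ℝ))), ((-y1, -y2), ((-1 : ℝ), (0 : ℝ)))} := by
      rintro ⟨⟨X, Y⟩, ⟨c, s⟩⟩ hx
      obtain ⟨hs, hc, -, η, hη, hX, hY⟩ := key _ hx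
      simp only at hs hc hX hY
      subst hs; subst hX; subst hY
      simp only [mem_insert_iff, mem_singleton_iff, Prod.mk.injEq]
      rcases sq_one_cases hη with rfl | rfl <;> rcases sq_one_cases hc with rfl | rfl
      · left; simp
      · right; right; left; simp
      · right; left; simp
      · right; right; right; simp
    exact (encard_le_encard hsub).trans (encard_four_le _ _ _ _)
  · intro hα
    refine le_of_eq ?_
    rw [encard_eq_zero, eq_empty_iff_forall_notMem]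
    intro x hx
    exact hα (key x hx).2.2.1

lemma Par.caseC (P : Par) (h : P.α ^ 2 + P.β ^ 2 = 1) : P.S.encard ≤ 10 := by
  have h1 := P.Cp_le h
  have h2 := P.flip_Cp_le h
  have h3 := P.C0_le h
  have h4 := P.C1_le h
  refine P.encard_S_le_C.trans ?_
  rcases eq_or_ne P.α 0 with hα | hα
  · rw [hα] at h1 h2
    have hβ : P.β ^ 2 = 1 := by rw [hα] at h; linarith
    have h5 := h1.trans (encard_caseC0 P.he0 P.he1 hβ)
    have h6 := h2.trans (encard_caseC0 P.he0 P.he1 (by simpa using hβ))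
    refine (add_le_add (add_le_add (add_le_add h5 h6) h3.1) h4).trans ?_
    norm_num
  · have h5 := encard_caseC (μ := P.μ) (β := P.β) P.he0 P.he1 hα
    have h6 := add_le_add h1 h2
    refine (add_le_add (add_le_add (h6.trans h5) (h3.2 hα)) h4).trans ?_
    norm_num

/-- The reduced solution set has at most ten elements. -/
theorem Par.ten (P : Par) : P.S.encard ≤ 10 := by
  have hδ := P.δ_eq
  have h0 : 0 ≤ 1 - P.α ^ 2 - P.β ^ 2 := by
    rw [← hδ, show P.a * P.d - P.g ^ 2 = (P.p1 * P.q2 - P.p2 * P.q1) ^ 2 by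
      simp only [Par.a, Par.d, Par.g]; ring]
    positivity
  rcases h0.eq_or_lt with h1 | h1
  · exact P.caseC (by linarith)
  · rw [← hδ] at h1
    rcases eq_or_ne P.g 0 with hg | hg
    · exact P.caseB h1 hg
    · exact P.caseA h1 hg

end Pool.Agent.TH798.CE
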